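import Pool.Agent.K9h83.BR.Rand

/-!
# Almost every point
-/

set_option autoImplicit false

namespace Pool.Agent.K9h83.BR

open Finset MeasureTheory Filter Topology

/-- **The limit**, for a fixed sequence and finitely many bad scales. -/
theorem limit' {κ : ℝ} (hκ : 0 ≤ κ) {U : ℕ} {x : ℕ → ℝ} {Q : ℕ → ℕ} {V : ℕ → ℝ}
    {C : ℝ} (hC : 0 ≤ C) {S : Set ℕ} (hS : S.Finite)
    (h : ∀ j, 3 ≤ j → j ∉ S → ∀ Q' ≤ Q j, ∀ V' ≤ V j,
      total κ (2 ^ j) Q' V' x ≤ C * ((2 : ℝ) ^ j / Real.log (2 ^ j) ^ U)) :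
    ∃ C' : ℝ, ∀ N : ℕ, 3 ≤ N → ∀ Q' ≤ Q (scaleOf N), ∀ V' ≤ V (scaleOf N),
      total κ N Q' V' x ≤ C' * (N / Real.log N ^ U) := by
  classical
  let T : ℕ → ℝ := fun j => total κ (2 ^ j) (Q j) (V j) x / ((2 : ℝ) ^ j / Real.log (2 ^ j) ^ U)
  have hlog2 : ∀ j : ℕ, 1 ≤ j → 0 < Real.log ((2 : ℝ) ^ j) := by
    intro j hj
    refine Real.log_pos ?_
    exact one_lt_pow₀ (by norm_num) (by omega)
  have hVp : ∀ j : ℕ, 1 ≤ j → 0 < (2 : ℝ) ^ j / Real.log ((2 : ℝ) ^ j) ^ U := by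
    intro j hj
    have := hlog2 j hj
    positivity
  have hT0 : ∀ j : ℕ, 1 ≤ j → 0 ≤ T j := fun j hj =>
    div_nonneg (total_nonneg hκ _ _ _ _) (hVp j hj).le
  let C₁ : ℝ := C + ∑ j ∈ hS.toFinset.filter (fun j => 3 ≤ j), T j
  have hsum0 : 0 ≤ ∑ j ∈ hS.toFinset.filter (fun j => 3 ≤ j), T j :=
    sum_nonneg fun j hj => hT0 j (by have := (mem_filter.1 hj).2; omega)
  have hC₁ : 0 ≤ C₁ := add_nonneg hC hsum0
  have hscale : ∀ j, 3 ≤ j → ∀ Q' ≤ Q j, ∀ V' ≤ V j,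
      total κ (2 ^ j) Q' V' x ≤ C₁ * ((2 : ℝ) ^ j / Real.log (2 ^ j) ^ U) := by
    intro j hj Q' hQ' V' hV'
    have hV := hVp j (by omega)
    by_cases hjS : j ∈ S
    · have h1 : total κ (2 ^ j) (Q j) (V j) x =
          T j * ((2 : ℝ) ^ j / Real.log (2 ^ j) ^ U) := (div_mul_cancel₀ _ hV.ne').symm
      have h2 : T j ≤ ∑ j ∈ hS.toFinset.filter (fun j => 3 ≤ j), T j :=
        single_le_sum (f := T) (fun i hi => hT0 i (by have := (mem_filter.1 hi).2; omega))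
          (mem_filter.2 ⟨hS.mem_toFinset.2 hjS, hj⟩)
      calc _ ≤ total κ (2 ^ j) (Q j) (V j) x := total_mono hκ le_rfl hQ' hV' _
        _ = T j * ((2 : ℝ) ^ j / Real.log (2 ^ j) ^ U) := h1
        _ ≤ _ := mul_le_mul_of_nonneg_right (by linarith) hV.le
    · exact (h j hj hjS Q' hQ' V' hV').trans (mul_le_mul_of_nonneg_right (by linarith) hV.le)
  refine ⟨4 * C₁, ?_⟩
  intro N hN Q' hQ' V' hV'
  have hNr : (3 : ℝ) ≤ N := by exact_mod_cast hN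
  have hle : (N : ℝ) ≤ (2 : ℝ) ^ scaleOf N := by exact_mod_cast le_two_pow_scaleOf N
  have hge : (2 : ℝ) ^ scaleOf N ≤ 4 * N := by exact_mod_cast two_pow_scaleOf_le hN
  have hlogN : 0 < Real.log N := Real.log_pos (by linarith)
  have hlog : Real.log N ≤ Real.log ((2 : ℝ) ^ scaleOf N) := Real.log_le_log (by linarith) hle
  calc total κ N Q' V' x ≤ total κ (2 ^ scaleOf N) Q' V' x :=
        total_mono hκ (le_two_pow_scaleOf N) le_rfl le_rfl _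
    _ ≤ C₁ * ((2 : ℝ) ^ scaleOf N / Real.log (2 ^ scaleOf N) ^ U) :=
        hscale _ (scaleOf_ge N) Q' hQ' V' hV'
    _ ≤ C₁ * ((4 * N) / Real.log N ^ U) := by
        refine mul_le_mul_of_nonneg_left ?_ hC₁
        exact div_le_div₀ (by positivity) hge (by positivity)
          (pow_le_pow_left₀ hlogN.le hlog _)
    _ = 4 * C₁ * (N / Real.log N ^ U) := by ring

/-- **Almost every point.** -/
theorem almost (κ : ℝ) (hκ : 1 ≤ κ) (U : ℕ) : ∃ B : ℕ, ∀ (Ω : Type) [MeasurableSpace Ω]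
    (μ : Measure Ω) (x : ℕ → Ω → ℝ) (C₀ : ℝ), 0 ≤ C₀ → (∀ d, Measurable (x d)) →
    Spread μ x C₀ → ∀ᵐ ω ∂μ, ∃ C : ℝ, ∀ N : ℕ, 3 ≤ N → ∀ Q : ℕ,
      (Q : ℝ) ≤ N / Real.log N ^ B →
      total κ N Q (N / Real.log N ^ B) (fun d => x d ω) ≤ C * (N / Real.log N ^ U) := by
  classical
  obtain ⟨K₁, C, hC, h0⟩ := scaleM κ hκ U
  refine ⟨K₁ + 2, ?_⟩
  intro Ω _ μ x C₀ hC₀ hx hspread
  let V : ℕ → ℝ := fun j => 6 ^ (K₁ + 2) * ((2 : ℝ) ^ j / (j : ℝ) ^ (K₁ + 2))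
  let Q : ℕ → ℕ := fun j => min (2 ^ j) ⌊V j⌋₊
  have hV0 : ∀ j, 0 ≤ V j := fun j => by
    show 0 ≤ 6 ^ (K₁ + 2) * ((2 : ℝ) ^ j / (j : ℝ) ^ (K₁ + 2))
    positivity
  have hQV : ∀ j, (Q j : ℝ) ≤ V j := fun j => by
    have h1 : ((Q j : ℕ) : ℝ) ≤ (⌊V j⌋₊ : ℝ) := by exact_mod_cast min_le_right _ _
    exact h1.trans (Nat.floor_le (hV0 j))
  have hb : ∀ j : ℕ, ∃ Bad : Set Ω,
      μ Bad ≤ ENNReal.ofReal ((8 * C₀ * 6 ^ (K₁ + 2)) * (1 / (j : ℝ) ^ 2)) ∧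
      (3 ≤ j → ∀ ω ∉ Bad, ∀ Q' ≤ Q j, ∀ V' ≤ V j,
        total κ (2 ^ j) Q' V' (fun d => x d ω) ≤ C * ((2 : ℝ) ^ j / Real.log (2 ^ j) ^ U)) := by
    intro j
    by_cases hj : 3 ≤ j
    · have h8 : 8 ≤ 2 ^ j := by
        calc 8 = 2 ^ 3 := by norm_num
          _ ≤ 2 ^ j := Nat.pow_le_pow_right (by norm_num) hj
      obtain ⟨Bad, h1, h2⟩ := h0 (2 ^ j) h8 (Q j) (min_le_left _ _) (V j) (hQV j) Ω μ x C₀ hC₀ hx
        hspread
      have hcast : (((2 ^ j : ℕ) : ℕ) : ℝ) = (2 : ℝ) ^ j := by push_cast; rfl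
      rw [hcast] at h1 h2
      refine ⟨Bad, h1.trans (ENNReal.ofReal_le_ofReal ?_), fun _ => h2⟩
      have hlog0 : 0 ≤ Real.log ((2 : ℝ) ^ j) := Real.log_nonneg (one_le_pow₀ (by norm_num))
      have hlj : Real.log ((2 : ℝ) ^ j) ≤ j := by
        rw [Real.log_pow]
        have h1 := Real.log_two_lt_d9
        have h2 : (0 : ℝ) ≤ j := Nat.cast_nonneg _
        nlinarith
      have hl : Real.log ((2 : ℝ) ^ j) ^ K₁ ≤ (j : ℝ) ^ K₁ := pow_le_pow_left₀ hlog0 hlj _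
      have hj0 : (0 : ℝ) < j := by
        have : 0 < j := by omega
        exact_mod_cast this
      have hVj := hV0 j
      calc 8 * C₀ * (V j * Real.log ((2 : ℝ) ^ j) ^ K₁ / 2 ^ j)
          ≤ 8 * C₀ * (V j * (j : ℝ) ^ K₁ / 2 ^ j) := by gcongr
        _ = 8 * C₀ * 6 ^ (K₁ + 2) * (1 / (j : ℝ) ^ 2) := by
            show 8 * C₀ * ((6 ^ (K₁ + 2) * ((2 : ℝ) ^ j / (j : ℝ) ^ (K₁ + 2))) *
              (j : ℝ) ^ K₁ / 2 ^ j) = _
            rw [pow_add (j : ℝ)]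
            field_simp
    · refine ⟨∅, ?_, fun h => absurd h hj⟩
      rw [measure_empty]
      exact bot_le
  choose Bad hB1 hB2 using hb
  have hsumm : Summable fun j : ℕ => (8 * C₀ * 6 ^ (K₁ + 2)) * (1 / (j : ℝ) ^ 2) :=
    (Real.summable_one_div_nat_pow.2 (by norm_num)).mul_left _
  have hnull := measure_setOfPred_frequently_eq_zero (μ := μ) (p := fun j ω => ω ∈ Bad j)
    (ne_top_of_le_ne_top hsumm.tsum_ofReal_ne_top (ENNReal.tsum_le_tsum hB1))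
  have hae : ∀ᵐ ω ∂μ, ¬ ∃ᶠ j in atTop, ω ∈ Bad j := by
    rw [ae_iff]
    simpa only [not_not] using hnull
  filter_upwards [hae] with ω hω
  have hfin : {j : ℕ | ω ∈ Bad j}.Finite := by
    by_contra hcon
    exact hω (Nat.frequently_atTop_iff_infinite.2 hcon)
  obtain ⟨C', hC'⟩ := limit' (κ := κ) (by linarith) (U := U) (x := fun d => x d ω) (Q := Q) (V := V)
    hC hfin (fun j hj hjS => hB2 j hj ω hjS)
  refine ⟨C', fun N hN Q' hQ' => ?_⟩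
  have hNr : (3 : ℝ) ≤ N := by exact_mod_cast hN
  have hlog1 : 1 ≤ Real.log N :=
    Pool.Agent.Results.MP_188a10_nt.WeightedExceptional.log_ge_one hN
  have hle : (N : ℝ) ≤ (2 : ℝ) ^ scaleOf N := by exact_mod_cast le_two_pow_scaleOf N
  have hge : (2 : ℝ) ^ scaleOf N ≤ 4 * N := by exact_mod_cast two_pow_scaleOf_le hN
  have hs3 := scaleOf_ge N
  have hs0 : (0 : ℝ) < scaleOf N := by
    have : 0 < scaleOf N := by omega
    exact_mod_cast this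
  have hj6 : (scaleOf N : ℝ) ≤ 6 * Real.log N := by
    have h1 : Real.log ((2 : ℝ) ^ scaleOf N) ≤ Real.log (4 * N) :=
      Real.log_le_log (by positivity) hge
    rw [Real.log_pow, Real.log_mul (by norm_num) (by positivity)] at h1
    have h2 : Real.log 4 = 2 * Real.log 2 := by
      rw [show (4 : ℝ) = 2 ^ 2 by norm_num, Real.log_pow]
      push_cast
      ring
    have h3 := Real.log_two_gt_d9
    have h4 := Real.log_two_lt_d9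
    nlinarith
  have hlogp : 0 < Real.log N := by linarith
  have hVle : (N : ℝ) / Real.log N ^ (K₁ + 2) ≤ V (scaleOf N) := by
    show _ ≤ 6 ^ (K₁ + 2) * ((2 : ℝ) ^ scaleOf N / (scaleOf N : ℝ) ^ (K₁ + 2))
    rw [div_le_iff₀ (by positivity)]
    have h1 : (scaleOf N : ℝ) ^ (K₁ + 2) ≤ 6 ^ (K₁ + 2) * Real.log N ^ (K₁ + 2) := by
      rw [← mul_pow]
      exact pow_le_pow_left₀ hs0.le hj6 _
    have h2 : 6 ^ (K₁ + 2) * ((2 : ℝ) ^ scaleOf N / (scaleOf N : ℝ) ^ (K₁ + 2)) *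
        Real.log N ^ (K₁ + 2) = (2 : ℝ) ^ scaleOf N *
          ((6 ^ (K₁ + 2) * Real.log N ^ (K₁ + 2)) / (scaleOf N : ℝ) ^ (K₁ + 2)) := by
      ring
    rw [h2]
    have h3 : 1 ≤ (6 ^ (K₁ + 2) * Real.log N ^ (K₁ + 2)) / (scaleOf N : ℝ) ^ (K₁ + 2) := by
      rw [le_div_iff₀ (by positivity), one_mul]
      exact h1
    nlinarith
  have hQN : (Q' : ℝ) ≤ (2 : ℝ) ^ scaleOf N :=
    hQ'.trans ((div_le_self (by positivity) (one_le_pow₀ hlog1)).trans hle)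
  refine hC' N hN Q' (le_min ?_ ?_) _ hVle
  · exact_mod_cast hQN
  · exact Nat.le_floor (hQ'.trans hVle)

/-- all weights at the same time -/
theorem almost_all : ∃ B : ℝ → ℕ → ℕ, ∀ (Ω : Type) [MeasurableSpace Ω]
    (μ : Measure Ω) (x : ℕ → Ω → ℝ) (C₀ : ℝ), (∀ d, Measurable (x d)) →
    Spread μ x C₀ → ∀ᵐ ω ∂μ, ∀ κ : ℝ, 0 ≤ κ → ∀ U : ℕ, ∃ C : ℝ, ∀ N : ℕ, 3 ≤ N → ∀ Q : ℕ,
      (Q : ℝ) ≤ N / Real.log N ^ B κ U →
      total κ N Q (N / Real.log N ^ B κ U) (fun d => x d ω) ≤ C * (N / Real.log N ^ U) := by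
  have hn : ∀ n U : ℕ, ∃ B : ℕ, ∀ (Ω : Type) [MeasurableSpace Ω]
      (μ : Measure Ω) (x : ℕ → Ω → ℝ) (C₀ : ℝ), 0 ≤ C₀ → (∀ d, Measurable (x d)) →
      Spread μ x C₀ → ∀ᵐ ω ∂μ, ∃ C : ℝ, ∀ N : ℕ, 3 ≤ N → ∀ Q : ℕ,
        (Q : ℝ) ≤ N / Real.log N ^ B →
        total ((n : ℝ) + 1) N Q (N / Real.log N ^ B) (fun d => x d ω) ≤
          C * (N / Real.log N ^ U) := fun n U =>
    almost ((n : ℝ) + 1) (by linarith [Nat.cast_nonneg (α := ℝ) n]) U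
  choose B hB using hn
  refine ⟨fun κ U => B ⌈κ⌉₊ U, ?_⟩
  intro Ω _ μ x C₀ hx hspread
  have hspread' : Spread μ x (max C₀ 0) := fun d hd u => (hspread d hd u).trans
    (ENNReal.ofReal_le_ofReal (div_le_div_of_nonneg_right (le_max_left _ _) (Nat.cast_nonneg _)))
  have hall : ∀ᵐ ω ∂μ, ∀ n U : ℕ, ∃ C : ℝ, ∀ N : ℕ, 3 ≤ N → ∀ Q : ℕ,
      (Q : ℝ) ≤ N / Real.log N ^ B n U →
      total ((n : ℝ) + 1) N Q (N / Real.log N ^ B n U) (fun d => x d ω) ≤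
        C * (N / Real.log N ^ U) := by
    rw [ae_all_iff]
    intro n
    rw [ae_all_iff]
    intro U
    exact hB n U Ω μ x (max C₀ 0) (le_max_right _ _) hx hspread'
  filter_upwards [hall] with ω hω κ hκ U
  obtain ⟨C, hC⟩ := hω ⌈κ⌉₊ U
  refine ⟨C, fun N hN Q hQ => (total_mono_weight hκ ?_ N Q _ _).trans (hC N hN Q hQ)⟩
  linarith [Nat.le_ceil κ]

end Pool.Agent.K9h83.BR
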