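import Pool.Agent.K9h83.BR.Convex

/-!
# Concave functions
-/

set_option autoImplicit false

namespace Pool.Agent.K9h83.BR

open MeasureTheory

theorem concave_class (a b s : ℝ) (hab : a ≤ b) (hs : 0 < s) (f : ℝ → ℝ)
    (hf : ConcaveOn ℝ (Set.Icc a b) f) (hfc : ContinuousOn f (Set.Icc a b))
    (hslope : ∀ x ∈ Set.Icc a b, ∀ y ∈ Set.Icc a b, x ≤ y → s * (y - x) ≤ f y - f x)
    (d : ℕ) (hd : 1 ≤ d) (u : ℤ) :
    volume {t | t ∈ Set.Icc a b ∧ (d : ℤ) ∣ ⌊f t⌋ - u} ≤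
      ENNReal.ofReal ((b - a) / d + 2 / s) := by
  have hm : ∀ t ∈ Set.Icc (-b) (-a), -t ∈ Set.Icc a b := fun t ht =>
    ⟨by linarith [ht.2], by linarith [ht.1]⟩
  have hconv : ConvexOn ℝ (Set.Icc (-b) (-a)) (fun t => -f (-t)) := by
    refine ⟨convex_Icc _ _, fun x hx y hy α β hα hβ hαβ => ?_⟩
    have h := hf.2 (hm x hx) (hm y hy) hα hβ hαβ
    simp only [smul_eq_mul] at h ⊢
    have e : -(α * x + β * y) = α * -x + β * -y := by ring
    rw [e]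
    linarith
  have hcont : ContinuousOn (fun t => -f (-t)) (Set.Icc (-b) (-a)) :=
    (hfc.comp continuous_neg.continuousOn hm).neg
  have hsl : ∀ x ∈ Set.Icc (-b) (-a), ∀ y ∈ Set.Icc (-b) (-a), x ≤ y →
      s * (y - x) ≤ (fun t => -f (-t)) y - (fun t => -f (-t)) x := by
    intro x hx y hy hxy
    have h := hslope (-y) (hm y hy) (-x) (hm x hx) (by linarith)
    show s * (y - x) ≤ -f (-y) - -f (-x)
    linarith
  have h := convex_class (-b) (-a) s (by linarith) hs (fun t => -f (-t)) hconv hcont hsl d hd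
    (-u - 1)
  have e : (-a - -b) / (d : ℝ) + 2 / s = (b - a) / d + 2 / s := by ring
  rw [e] at h
  have hZ : volume (⋃ k : ℤ, {t | t ∈ Set.Icc a b ∧ f t = k}) = 0 := by
    rw [measure_iUnion_null_iff]
    intro k
    refine Set.Subsingleton.measure_zero (fun x hx y hy => ?_) _
    obtain ⟨hx1, hx2⟩ := hx
    obtain ⟨hy1, hy2⟩ := hy
    rcases le_total x y with hxy | hxy
    · have := hslope x hx1 y hy1 hxy
      rw [hx2, hy2] at this
      nlinarith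
    · have := hslope y hy1 x hx1 hxy
      rw [hx2, hy2] at this
      nlinarith
  have hsub : {t | t ∈ Set.Icc a b ∧ (d : ℤ) ∣ ⌊f t⌋ - u} ⊆
      (fun t : ℝ => -t) ⁻¹' {t | t ∈ Set.Icc (-b) (-a) ∧ (d : ℤ) ∣ ⌊-f (-t)⌋ - (-u - 1)} ∪
        ⋃ k : ℤ, {t | t ∈ Set.Icc a b ∧ f t = k} := by
    rintro t ⟨ht, hdv⟩
    by_cases hk : f t = ⌊f t⌋
    · exact Or.inr (Set.mem_iUnion.2 ⟨_, ht, hk⟩)
    · left
      refine ⟨⟨by linarith [ht.2], by linarith [ht.1]⟩, ?_⟩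
      have h1 := Int.floor_le (f t)
      have h2 := Int.lt_floor_add_one (f t)
      have h3 : (⌊f t⌋ : ℝ) < f t := lt_of_le_of_ne h1 (fun h => hk h.symm)
      have h4 : ⌊-f (- -t)⌋ = -⌊f t⌋ - 1 := by
        rw [neg_neg, Int.floor_eq_iff]
        push_cast
        constructor <;> linarith
      rw [h4]
      have h5 : -⌊f t⌋ - 1 - (-u - 1) = -(⌊f t⌋ - u) := by ring
      rw [h5]
      exact (dvd_neg).2 hdv
  calc volume {t | t ∈ Set.Icc a b ∧ (d : ℤ) ∣ ⌊f t⌋ - u}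
      ≤ volume ((fun t : ℝ => -t) ⁻¹' {t | t ∈ Set.Icc (-b) (-a) ∧
          (d : ℤ) ∣ ⌊-f (-t)⌋ - (-u - 1)} ∪ ⋃ k : ℤ, {t | t ∈ Set.Icc a b ∧ f t = k}) :=
        measure_mono hsub
    _ ≤ volume ((fun t : ℝ => -t) ⁻¹' {t | t ∈ Set.Icc (-b) (-a) ∧
          (d : ℤ) ∣ ⌊-f (-t)⌋ - (-u - 1)}) + volume (⋃ k : ℤ, {t | t ∈ Set.Icc a b ∧ f t = k}) :=
        measure_union_le _ _
    _ = volume {t | t ∈ Set.Icc (-b) (-a) ∧ (d : ℤ) ∣ ⌊-f (-t)⌋ - (-u - 1)} := by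
        rw [hZ, add_zero]
        exact Measure.measure_preimage_neg volume _
    _ ≤ _ := h

end Pool.Agent.K9h83.BR
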