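import Mathlib

/-!
# Residue classes of the integer parts of a convex function
-/

set_option autoImplicit false

namespace Pool.Agent.K9h83.BR

open MeasureTheory Set

/-- the slopes of a convex function increase -/
theorem convex_slopes (a b : ℝ) (f : ℝ → ℝ) (hf : ConvexOn ℝ (Icc a b) f) (p₁ p₂ t₁ t₂ : ℝ)
    (hp₁ : p₁ ∈ Icc a b) (hp₂ : p₂ ∈ Icc a b) (ht₁ : t₁ ∈ Icc a b) (ht₂ : t₂ ∈ Icc a b)
    (h1 : p₁ ≤ t₁) (h2 : p₂ ≤ t₂) (hp : p₁ < p₂) (ht : t₁ < t₂)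
    (he : f t₂ - f t₁ = f p₂ - f p₁) (hpos : 0 < f p₂ - f p₁) : t₂ - t₁ ≤ p₂ - p₁ := by
  have hpt : p₁ < t₂ := lt_of_le_of_lt h1 ht
  have s1 : (f p₂ - f p₁) / (p₂ - p₁) ≤ (f t₂ - f p₁) / (t₂ - p₁) :=
    hf.secant_mono hp₁ hp₂ ht₂ hp.ne' hpt.ne' h2
  have s2 : (f p₁ - f t₂) / (p₁ - t₂) ≤ (f t₁ - f t₂) / (t₁ - t₂) :=
    hf.secant_mono ht₂ hp₁ ht₁ hpt.ne ht.ne h1
  have e1 : (f p₁ - f t₂) / (p₁ - t₂) = (f t₂ - f p₁) / (t₂ - p₁) := by
    rw [← neg_sub (f t₂), ← neg_sub t₂, neg_div_neg_eq]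
  have e2 : (f t₁ - f t₂) / (t₁ - t₂) = (f t₂ - f t₁) / (t₂ - t₁) := by
    rw [← neg_sub (f t₂), ← neg_sub t₂, neg_div_neg_eq]
  rw [e1, e2] at s2
  have s3 := s1.trans s2
  rw [he] at s3
  exact (div_le_div_iff_of_pos_left hpos (sub_pos.2 hp) (sub_pos.2 ht)).1 s3

/-- the same with the constant `1 / s` -/
theorem convex_class' (a b s : ℝ) (hab : a ≤ b) (hs : 0 < s) (f : ℝ → ℝ)
    (hf : ConvexOn ℝ (Set.Icc a b) f) (hfc : ContinuousOn f (Set.Icc a b))
    (hslope : ∀ x ∈ Set.Icc a b, ∀ y ∈ Set.Icc a b, x ≤ y → s * (y - x) ≤ f y - f x)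
    (d : ℕ) (hd : 1 ≤ d) (u : ℤ) :
    MeasureTheory.volume {t | t ∈ Set.Icc a b ∧ (d : ℤ) ∣ ⌊f t⌋ - u} ≤
      ENNReal.ofReal ((b - a) / d + 1 / s) := by
  have hd0 : (0 : ℝ) < d := by exact_mod_cast hd
  have ha : a ∈ Icc a b := ⟨le_rfl, hab⟩
  -- strict monotonicity
  have hmono : ∀ x ∈ Icc a b, ∀ y ∈ Icc a b, x < y → f x < f y := by
    intro x hx y hy hxy
    have := hslope x hx y hy hxy.le
    have : 0 < s * (y - x) := mul_pos hs (sub_pos.2 hxy)
    linarith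
  have hmono' : ∀ x ∈ Icc a b, ∀ y ∈ Icc a b, f x < f y → x < y := by
    intro x hx y hy hxy
    by_contra hcon
    push Not at hcon
    have h1 := hslope y hy x hx hcon
    have h2 : 0 ≤ s * (x - y) := mul_nonneg hs.le (sub_nonneg.2 hcon)
    linarith
  -- the classes
  set A : ℤ → Set ℝ := fun v => {t | t ∈ Icc a b ∧ (d : ℤ) ∣ ⌊f t⌋ - v} with hA
  have hAmeas : ∀ v, MeasurableSet (A v) := by
    intro v
    set F : ℝ → ℝ := IccExtend hab ((Icc a b).domRestrict f) with hF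
    have hFc : Continuous F := (continuousOn_iff_continuous_domRestrict.1 hfc).Icc_extend'
    have hFm : Measurable fun t => ⌊F t⌋ := Int.measurable_floor.comp hFc.measurable
    have h1 : A v = Icc a b ∩ (fun t => ⌊F t⌋) ⁻¹' {k : ℤ | (d : ℤ) ∣ k - v} := by
      ext t
      constructor
      · rintro ⟨h2, h3⟩
        refine ⟨h2, ?_⟩
        show (d : ℤ) ∣ ⌊F t⌋ - v
        rw [hF, IccExtend_of_mem hab _ h2]
        exact h3
      · rintro ⟨h2, h3⟩
        refine ⟨h2, ?_⟩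
        have h3' : (d : ℤ) ∣ ⌊F t⌋ - v := h3
        rw [hF, IccExtend_of_mem hab _ h2] at h3'
        exact h3'
    rw [h1]
    exact measurableSet_Icc.inter (hFm (MeasurableSet.of_discrete))
  have hsum : ∑ i ∈ Finset.range d, volume (A (u - i)) ≤ ENNReal.ofReal (b - a) := by
    rw [← measure_biUnion_finset ?_ (fun i _ => hAmeas _)]
    · rw [← Real.volume_Icc]
      refine measure_mono ?_
      intro t ht
      simp only [mem_iUnion] at ht
      obtain ⟨i, -, hi⟩ := ht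
      exact hi.1
    · intro i hi j hj hij
      rw [Function.onFun, Set.disjoint_left]
      rintro t ⟨-, h1⟩ ⟨-, h2⟩
      apply hij
      have h3 : (d : ℤ) ∣ (i : ℤ) - j := by
        have := dvd_sub h1 h2
        have e : (⌊f t⌋ - (u - i)) - (⌊f t⌋ - (u - j)) = (i : ℤ) - j := by ring
        rwa [e] at this
      have hi' : i < d := by simpa using hi
      have hj' : j < d := by simpa using hj
      have h4 : (i : ℤ) - j = 0 := Int.eq_zero_of_abs_lt_dvd h3 (by rw [abs_lt]; constructor <;> omega)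
      omega
  -- the main part
  set E' : Set ℝ := {t | t ∈ A u ∧ f a ≤ f t - (d - 1)} with hE'
  have hshift : ∀ i ∈ Finset.range d, volume E' ≤ volume (A (u - i)) := by
    intro i hi
    have hi' : i < d := Finset.mem_range.1 hi
    have hir : (i : ℝ) ≤ d - 1 := by
      have : (i : ℝ) + 1 ≤ d := by exact_mod_cast hi'
      linarith
    have hex : ∀ t : ℝ, ∃ p : ℝ, t ∈ E' → (p ∈ Icc a b ∧ p ≤ t ∧ f p = f t - i) := by
      intro t
      by_cases ht : t ∈ E'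
      · obtain ⟨⟨h1, h2⟩, h3⟩ := ht
        have hi0 : (0 : ℝ) ≤ i := Nat.cast_nonneg i
        have h4 : f t - i ∈ Icc (f a) (f t) := ⟨by linarith, by linarith⟩
        obtain ⟨p, hp, hp'⟩ := intermediate_value_Icc h1.1 (hfc.mono (Icc_subset_Icc le_rfl h1.2)) h4
        exact ⟨p, fun _ => ⟨⟨hp.1, hp.2.trans h1.2⟩, hp.2, hp'⟩⟩
      · exact ⟨0, fun h => absurd h ht⟩
    choose P hP using hex
    have hexp : ∀ t₁ ∈ E', ∀ t₂ ∈ E', t₁ < t₂ → t₂ - t₁ ≤ P t₂ - P t₁ := by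
      intro t₁ h1 t₂ h2 h12
      obtain ⟨a1, a2, a3⟩ := hP t₁ h1
      obtain ⟨b1, b2, b3⟩ := hP t₂ h2
      have h3 := hmono t₁ h1.1.1 t₂ h2.1.1 h12
      have h4 : f (P t₁) < f (P t₂) := by rw [a3, b3]; linarith
      exact convex_slopes a b f hf (P t₁) (P t₂) t₁ t₂ a1 b1 h1.1.1 h2.1.1 a2 b2
        (hmono' _ a1 _ b1 h4) h12 (by rw [a3, b3]; ring) (by linarith)
    have hexp2 : ∀ t₁ ∈ E', ∀ t₂ ∈ E', dist t₁ t₂ ≤ dist (P t₁) (P t₂) := by
      intro t₁ h1 t₂ h2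
      rcases lt_trichotomy t₁ t₂ with h | h | h
      · have := hexp t₁ h1 t₂ h2 h
        rw [dist_comm t₁, dist_comm (P t₁), Real.dist_eq, Real.dist_eq, abs_of_pos (by linarith)]
        exact this.trans (le_abs_self _)
      · rw [h, dist_self, dist_self]
      · have := hexp t₂ h2 t₁ h1 h
        rw [Real.dist_eq, Real.dist_eq, abs_of_pos (by linarith)]
        exact this.trans (le_abs_self _)
    have hinj : InjOn P E' := by
      intro t₁ h1 t₂ h2 h12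
      have := hexp2 t₁ h1 t₂ h2
      rw [h12, dist_self] at this
      exact dist_le_zero.1 this
    set ψ := Function.invFunOn P E' with hψ
    have hψP : ∀ t ∈ E', ψ (P t) = t := fun t ht => hinj.leftInvOn_invFunOn ht
    have hLip : LipschitzOnWith 1 ψ (P '' E') := by
      refine LipschitzOnWith.of_dist_le_mul ?_
      rintro _ ⟨t₁, h1, rfl⟩ _ ⟨t₂, h2, rfl⟩
      rw [hψP t₁ h1, hψP t₂ h2, NNReal.coe_one, one_mul]
      exact hexp2 t₁ h1 t₂ h2
    have hsub : E' ⊆ ψ '' (P '' E') := fun t ht => ⟨P t, ⟨t, ht, rfl⟩, hψP t ht⟩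
    have hH := hLip.hausdorffMeasure_image_le (d := 1) zero_le_one
    rw [hausdorffMeasure_real, ENNReal.coe_one, ENNReal.one_rpow, one_mul] at hH
    refine (measure_mono hsub).trans (hH.trans (measure_mono ?_))
    rintro _ ⟨t, ht, rfl⟩
    obtain ⟨h1, h2, h3⟩ := hP t ht
    refine ⟨h1, ?_⟩
    rw [h3, Int.floor_sub_natCast]
    have e : ⌊f t⌋ - (i : ℤ) - (u - i) = ⌊f t⌋ - u := by ring
    rw [e]
    exact ht.1.2
  have hmain : volume E' ≤ ENNReal.ofReal ((b - a) / d) := by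
    have h1 : (d : ENNReal) * volume E' ≤ ENNReal.ofReal (b - a) := by
      refine le_trans ?_ hsum
      rw [← nsmul_eq_mul]
      have := Finset.card_nsmul_le_sum (Finset.range d) (fun i => volume (A (u - i))) (volume E') hshift
      rwa [Finset.card_range] at this
    rw [ENNReal.ofReal_div_of_pos hd0, ENNReal.ofReal_natCast,
      ENNReal.le_div_iff_mul_le (Or.inl (by exact_mod_cast (by omega : d ≠ 0)))
        (Or.inl (ENNReal.natCast_ne_top d)), mul_comm]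
    exact h1
  -- the rest
  have hrest : volume {t | t ∈ A u ∧ f t - (d - 1) < f a} ≤ ENNReal.ofReal (1 / s) := by
    refine (Real.volume_le_diam _).trans (Metric.ediam_le_of_forall_dist_le ?_)
    have key : ∀ t, t ∈ A u ∧ f t - (d - 1) < f a → ⌊f a⌋ ≤ ⌊f t⌋ ∧ ⌊f t⌋ < ⌊f a⌋ + d := by
      rintro t ⟨⟨h1, h2⟩, h3⟩
      constructor
      · refine Int.floor_le_floor ?_
        have := hslope a ha t h1 h1.1
        have : 0 ≤ s * (t - a) := mul_nonneg hs.le (sub_nonneg.2 h1.1)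
        linarith
      · have h4 : (⌊f t⌋ : ℝ) ≤ f t := Int.floor_le _
        have h5 : f a < ⌊f a⌋ + 1 := Int.lt_floor_add_one _
        have h6 : (⌊f t⌋ : ℝ) < ⌊f a⌋ + d := by linarith
        exact_mod_cast h6
    have hle : ∀ x ∈ {t | t ∈ A u ∧ f t - (d - 1) < f a}, ∀ y ∈ {t | t ∈ A u ∧ f t - (d - 1) < f a},
        x ≤ y → y - x ≤ 1 / s := by
      intro x hx y hy hxy
      obtain ⟨x1, x2⟩ := key x hx
      obtain ⟨y1, y2⟩ := key y hy
      have h3 : (d : ℤ) ∣ ⌊f y⌋ - ⌊f x⌋ := by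
        have := dvd_sub hy.1.2 hx.1.2
        have e : (⌊f y⌋ - u) - (⌊f x⌋ - u) = ⌊f y⌋ - ⌊f x⌋ := by ring
        rwa [e] at this
      have h4 : ⌊f y⌋ - ⌊f x⌋ = 0 := Int.eq_zero_of_abs_lt_dvd h3 (by rw [abs_lt]; constructor <;> omega)
      have h5 := hslope x hx.1.1 y hy.1.1 hxy
      have h6 : f y < ⌊f y⌋ + 1 := Int.lt_floor_add_one _
      have h7 : (⌊f x⌋ : ℝ) ≤ f x := Int.floor_le _
      have h8 : (⌊f y⌋ : ℝ) = ⌊f x⌋ := by exact_mod_cast sub_eq_zero.1 h4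
      rw [le_div_iff₀ hs]
      nlinarith
    intro x hx y hy
    rcases le_total x y with h | h
    · rw [dist_comm, Real.dist_eq, abs_of_nonneg (sub_nonneg.2 h)]
      exact hle x hx y hy h
    · rw [Real.dist_eq, abs_of_nonneg (sub_nonneg.2 h)]
      exact hle y hy x hx h
  have hcover : {t | t ∈ Icc a b ∧ (d : ℤ) ∣ ⌊f t⌋ - u} ⊆
      E' ∪ {t | t ∈ A u ∧ f t - (d - 1) < f a} := by
    intro t ht
    rcases le_or_gt (f a) (f t - (d - 1)) with h | h
    · exact Or.inl ⟨ht, h⟩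
    · exact Or.inr ⟨ht, h⟩
  refine (measure_mono hcover).trans ((measure_union_le _ _).trans ((add_le_add hmain hrest).trans ?_))
  rw [← ENNReal.ofReal_add (div_nonneg (sub_nonneg.2 hab) hd0.le) (by positivity)]

theorem convex_class (a b s : ℝ) (hab : a ≤ b) (hs : 0 < s) (f : ℝ → ℝ)
    (hf : ConvexOn ℝ (Set.Icc a b) f) (hfc : ContinuousOn f (Set.Icc a b))
    (hslope : ∀ x ∈ Set.Icc a b, ∀ y ∈ Set.Icc a b, x ≤ y → s * (y - x) ≤ f y - f x)
    (d : ℕ) (hd : 1 ≤ d) (u : ℤ) :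
    MeasureTheory.volume {t | t ∈ Set.Icc a b ∧ (d : ℤ) ∣ ⌊f t⌋ - u} ≤
      ENNReal.ofReal ((b - a) / d + 2 / s) := by
  refine (convex_class' a b s hab hs f hf hfc hslope d hd u).trans (ENNReal.ofReal_le_ofReal ?_)
  have : (1 : ℝ) / s ≤ 2 / s := div_le_div_of_nonneg_right (by norm_num) hs.le
  linarith

end Pool.Agent.K9h83.BR
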