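import Mathlib

/-!
# Counting the cells on which the integer part of a linear function is in a residue class
-/

set_option autoImplicit false

namespace Pool.Agent.K9h83.BR

open Finset

theorem card_le_of_width (S : Finset ℕ) (x L : ℝ) (hL : 0 ≤ L)
    (h : ∀ i ∈ S, x ≤ (i : ℝ) ∧ (i : ℝ) < x + L) : (S.card : ℝ) ≤ L + 1 := by
  rcases S.eq_empty_or_nonempty with h0 | h0
  · rw [h0, card_empty, Nat.cast_zero]
    linarith
  · have hsub : S ⊆ Icc (S.min' h0) (S.max' h0) := fun i hi =>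
      mem_Icc.2 ⟨S.min'_le i hi, S.le_max' i hi⟩
    have h1 := card_le_card hsub
    rw [Nat.card_Icc] at h1
    have h2 := h _ (S.min'_mem h0)
    have h3 := h _ (S.max'_mem h0)
    have h4 : S.min' h0 ≤ S.max' h0 := S.min'_le _ (S.max'_mem h0)
    have h5 : (S.card : ℝ) ≤ ((S.max' h0 + 1 - S.min' h0 : ℕ) : ℝ) := by exact_mod_cast h1
    rw [Nat.cast_sub (by omega)] at h5
    push_cast at h5
    linarith

theorem card_class (a b l : ℤ) (d : ℕ) (hd : 1 ≤ d) (hab : a ≤ b) :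
    (((Icc a b).filter fun m => (d : ℤ) ∣ m - l).card : ℝ) ≤ ((b : ℝ) - a + 1) / d + 1 := by
  have hd0 : (0 : ℤ) < d := by exact_mod_cast hd
  have h1 : ((Icc a b).filter fun m => (d : ℤ) ∣ m - l) =
      (Ioc (a - 1) b).filter fun m => m ≡ l [ZMOD d] := by
    ext m
    rw [mem_filter, mem_filter, mem_Icc, mem_Ioc]
    constructor
    · rintro ⟨⟨h1, h2⟩, h3⟩
      exact ⟨⟨by omega, h2⟩, (Int.modEq_iff_dvd.2 h3).symm⟩
    · rintro ⟨⟨h1, h2⟩, h3⟩
      exact ⟨⟨by omega, h2⟩, Int.modEq_iff_dvd.1 h3.symm⟩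
  have h2 := Int.Ioc_filter_modEq_card (a - 1) b hd0 l
  have h3 : (((Icc a b).filter fun m => (d : ℤ) ∣ m - l).card : ℤ) =
      max (⌊((b : ℚ) - l) / ((d : ℤ) : ℚ)⌋ - ⌊(((a - 1 : ℤ) : ℚ) - l) / ((d : ℤ) : ℚ)⌋) 0 := by
    rw [h1]
    exact_mod_cast h2
  have hdq : (0 : ℚ) < ((d : ℤ) : ℚ) := by exact_mod_cast hd0
  have h4 : ((((Icc a b).filter fun m => (d : ℤ) ∣ m - l).card : ℤ) : ℚ) ≤
      ((b : ℚ) - a + 1) / d + 1 := by
    rw [h3]
    push_cast
    refine max_le ?_ ?_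
    · have g1 := Int.floor_le (((b : ℚ) - l) / (d : ℚ))
      have g2 := (Int.lt_floor_add_one ((((a : ℚ) - 1) - l) / (d : ℚ))).le
      have g3 : ((b : ℚ) - l) / (d : ℚ) - (((a : ℚ) - 1) - l) / (d : ℚ) =
          ((b : ℚ) - a + 1) / d := by
        rw [← sub_div]
        congr 1
        ring
      linarith
    · have g1 : (a : ℚ) ≤ b := by exact_mod_cast hab
      have g2 : (0 : ℚ) ≤ ((b : ℚ) - a + 1) / d := div_nonneg (by linarith) (Nat.cast_nonneg _)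
      linarith
  have h5 : ((((Icc a b).filter fun m => (d : ℤ) ∣ m - l).card : ℚ) : ℝ) ≤
      (((((b : ℚ) - a + 1) / d + 1 : ℚ)) : ℝ) := by
    exact_mod_cast h4
  push_cast at h5
  exact h5

/-- the number of cells -/
theorem card_cells {F G c : ℝ} (hc : 0 < c) {d : ℕ} (hd : 1 ≤ d) (hF : c * d ≤ F) {R : ℕ}
    (hR : F ≤ R) (l : ℤ) :
    (((range R).filter fun i : ℕ => (d : ℤ) ∣ ⌊(i : ℝ) * F / R + G⌋ - l).card : ℝ) ≤
      2 * (1 + 3 / c) * (R / d) := by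
  classical
  have hd0 : (0 : ℝ) < d := by exact_mod_cast hd
  have hd1 : (1 : ℝ) ≤ d := by exact_mod_cast hd
  have hF0 : 0 < F := lt_of_lt_of_le (by positivity) hF
  have hR0 : (0 : ℝ) < R := lt_of_lt_of_le hF0 hR
  have hmaps : ∀ i ∈ (range R).filter fun i : ℕ => (d : ℤ) ∣ ⌊(i : ℝ) * F / R + G⌋ - l,
      ⌊(i : ℝ) * F / R + G⌋ ∈ (Icc ⌊G⌋ ⌊F + G⌋).filter fun m => (d : ℤ) ∣ m - l := by
    intro i hi
    rw [mem_filter, mem_range] at hi
    rw [mem_filter, mem_Icc]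
    have h1 : (i : ℝ) ≤ R := by exact_mod_cast hi.1.le
    have h2 : 0 ≤ (i : ℝ) * F / R := by positivity
    have h3 : (i : ℝ) * F / R ≤ F := by
      rw [div_le_iff₀ hR0]
      nlinarith
    exact ⟨⟨Int.floor_le_floor (by linarith), Int.floor_le_floor (by linarith)⟩, hi.2⟩
  have hfib : ∀ m ∈ (Icc ⌊G⌋ ⌊F + G⌋).filter fun m => (d : ℤ) ∣ m - l,
      ((((range R).filter fun i : ℕ => (d : ℤ) ∣ ⌊(i : ℝ) * F / R + G⌋ - l).filter
        fun i : ℕ => ⌊(i : ℝ) * F / R + G⌋ = m).card : ℝ) ≤ R / F + 1 := by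
    intro m _
    refine card_le_of_width _ ((m - G) * R / F) (R / F) (by positivity) fun i hi => ?_
    have hm := (mem_filter.1 hi).2
    have h1 := Int.floor_le ((i : ℝ) * F / R + G)
    have h2 := Int.lt_floor_add_one ((i : ℝ) * F / R + G)
    rw [hm] at h1 h2
    have e : (i : ℝ) = ((i : ℝ) * F / R) * R / F := by field_simp
    constructor
    · rw [e]
      refine div_le_div_of_nonneg_right (mul_le_mul_of_nonneg_right ?_ hR0.le) hF0.le
      linarith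
    · rw [← add_div, e]
      refine div_lt_div_of_pos_right ?_ hF0
      nlinarith
  have hcard := card_eq_sum_card_fiberwise (s := (range R).filter
    fun i : ℕ => (d : ℤ) ∣ ⌊(i : ℝ) * F / R + G⌋ - l) (t := (Icc ⌊G⌋ ⌊F + G⌋).filter
    fun m => (d : ℤ) ∣ m - l) (f := fun i : ℕ => ⌊(i : ℝ) * F / R + G⌋) hmaps
  rw [hcard]
  push_cast
  refine (sum_le_sum hfib).trans ?_
  rw [sum_const, nsmul_eq_mul]
  have hcl := card_class ⌊G⌋ ⌊F + G⌋ l d hd (Int.floor_le_floor (by linarith))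
  have h1 : ((⌊F + G⌋ : ℝ) - ⌊G⌋) ≤ F + 1 := by
    have g1 := Int.floor_le (F + G)
    have g2 := Int.lt_floor_add_one G
    linarith
  have h2 : ((⌊F + G⌋ : ℝ) - ⌊G⌋ + 1) / d + 1 ≤ (1 + 3 / c) * (F / d) := by
    have g1 : ((⌊F + G⌋ : ℝ) - ⌊G⌋ + 1) / d ≤ (F + 2) / d :=
      div_le_div_of_nonneg_right (by linarith) hd0.le
    have g2 : (1 : ℝ) ≤ F / (c * d) := by
      rw [le_div_iff₀ (by positivity)]
      linarith
    have g3 : 2 / (d : ℝ) ≤ 2 := div_le_self (by norm_num) hd1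
    have g4 : (1 + 3 / c) * (F / d) = F / d + 3 * (F / (c * d)) := by
      field_simp
    have g5 : (F + 2) / (d : ℝ) = F / d + 2 / d := add_div _ _ _
    rw [g4]
    linarith
  have h3 : (R : ℝ) / F + 1 ≤ 2 * (R / F) := by
    have : (1 : ℝ) ≤ R / F := by
      rw [le_div_iff₀ hF0]
      linarith
    linarith
  calc _ ≤ ((1 + 3 / c) * (F / d)) * (2 * (R / F)) :=
        mul_le_mul (hcl.trans h2) h3 (by positivity) (by positivity)
    _ = 2 * (1 + 3 / c) * (R / d) := by field_simp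

end Pool.Agent.K9h83.BR
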