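import Pool.Agent.R425.MK.Lim

/-!
# Limsup sets of cells
-/

set_option autoImplicit false

namespace Pool.Agent.K9h83.BR

open Finset MeasureTheory Filter Topology

/-- the set of the numbers of `[0, 1)` in infinitely many bad cells -/
def Often (R : ℕ → ℕ) (Bad : ℕ → Finset ℕ) : Set ℝ :=
  {x | {j : ℕ | ∃ i ∈ Bad j, (i : ℝ) / R j ≤ x ∧ x < ((i : ℝ) + 1) / R j}.Infinite}

theorem dim_often {R : ℕ → ℕ} (hR : ∀ j, 1 ≤ R j) {Bad : ℕ → Finset ℕ} {D : ℝ} (hD : 0 < D)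
    (hs : Summable fun j => ((Bad j).card : ℝ) * (1 / (R j : ℝ)) ^ D) :
    dimH (Often R Bad) ≤ ENNReal.ofReal D := by
  classical
  let ι := Σ j : ℕ, (Bad j)
  let U : ι → Set ℝ := fun x => {y | ((x.2 : ℕ) : ℝ) / R x.1 ≤ y ∧ y < (((x.2 : ℕ) : ℝ) + 1) / R x.1}
  let d : ι → ℝ := fun x => 1 / (R x.1 : ℝ)
  have hRp : ∀ j, (0 : ℝ) < R j := fun j => by
    have : 0 < R j := hR j
    exact_mod_cast this
  have hd : ∀ i, 0 < d i := fun i => one_div_pos.2 (hRp _)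
  have hU : ∀ i, Metric.ediam (U i) ≤ ENNReal.ofReal (d i) := by
    intro i
    refine Metric.ediam_le fun a ha b hb => ?_
    rw [edist_dist, Real.dist_eq]
    refine ENNReal.ofReal_le_ofReal ?_
    obtain ⟨a1, a2⟩ := ha
    obtain ⟨b1, b2⟩ := hb
    have e : (((i.2 : ℕ) : ℝ) + 1) / R i.1 = ((i.2 : ℕ) : ℝ) / R i.1 + 1 / R i.1 := add_div _ _ _
    rw [e] at a2 b2
    show |a - b| ≤ 1 / (R i.1 : ℝ)
    rw [abs_le]
    constructor <;> linarith
  have hsum : Summable fun i => d i ^ D := by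
    have h1 : ∑' i : ι, ENNReal.ofReal (d i ^ D) ≠ ⊤ := by
      rw [ENNReal.tsum_sigma' (fun i : ι => ENNReal.ofReal (d i ^ D))]
      have h2 : ∑' j : ℕ, ENNReal.ofReal (((Bad j).card : ℝ) * (1 / (R j : ℝ)) ^ D) ≠ ⊤ :=
        hs.tsum_ofReal_ne_top
      refine ne_top_of_le_ne_top h2 (ENNReal.tsum_le_tsum fun j => ?_)
      rw [tsum_fintype]
      show ∑ _b : (Bad j), ENNReal.ofReal ((1 / (R j : ℝ)) ^ D) ≤ _
      rw [Finset.sum_const, Finset.card_univ, Fintype.card_coe, nsmul_eq_mul,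
        ← ENNReal.ofReal_natCast, ← ENNReal.ofReal_mul (Nat.cast_nonneg _)]
    refine (ENNReal.summable_toReal h1).congr fun i => ?_
    rw [ENNReal.toReal_ofReal (Real.rpow_nonneg (hd i).le _)]
  refine le_trans (dimH_mono ?_) (Pool.Agent.R425.MK.dimH_limsup U d hd hU hD hsum)
  intro x hx
  simp only [Often, Set.mem_ofPred_eq] at hx ⊢
  refine Set.Infinite.of_image (Sigma.fst : ι → ℕ) (hx.mono ?_)
  rintro j ⟨i, hi, h1, h2⟩
  exact ⟨⟨j, ⟨i, hi⟩⟩, ⟨h1, h2⟩, rfl⟩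

theorem null_often {R : ℕ → ℕ} (hR : ∀ j, 1 ≤ R j) {Bad : ℕ → Finset ℕ}
    (hs : Summable fun j => ((Bad j).card : ℝ) / R j) :
    (volume : Measure ℝ) (Often R Bad) = 0 := by
  classical
  have hRp : ∀ j, (0 : ℝ) < R j := fun j => by
    have : 0 < R j := hR j
    exact_mod_cast this
  let s : ℕ → Set ℝ := fun j => ⋃ i ∈ Bad j, Set.Ico ((i : ℝ) / R j) (((i : ℝ) + 1) / R j)
  have hle : ∀ j, volume (s j) ≤ ENNReal.ofReal (((Bad j).card : ℝ) / R j) := by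
    intro j
    refine (measure_biUnion_finset_le _ _).trans ?_
    have h1 : ∀ i ∈ Bad j, volume (Set.Ico ((i : ℝ) / R j) (((i : ℝ) + 1) / R j)) =
        ENNReal.ofReal (1 / R j) := by
      intro i _
      rw [Real.volume_Ico, ← sub_div, add_sub_cancel_left]
    rw [Finset.sum_congr rfl h1, Finset.sum_const, nsmul_eq_mul, ← ENNReal.ofReal_natCast,
      ← ENNReal.ofReal_mul (Nat.cast_nonneg _), mul_one_div]
  have h := measure_setOf_frequently_eq_zero (μ := (volume : Measure ℝ)) (p := fun j x => x ∈ s j)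
    (by
      refine ne_top_of_le_ne_top (hs.tsum_ofReal_ne_top) (ENNReal.tsum_le_tsum hle))
  refine measure_mono_null ?_ h
  intro x hx
  simp only [Often, Set.mem_ofPred_eq] at hx ⊢
  rw [Nat.frequently_atTop_iff_infinite]
  refine hx.mono ?_
  rintro j ⟨i, hi, h1, h2⟩
  exact Set.mem_biUnion hi ⟨h1, h2⟩

end Pool.Agent.K9h83.BR
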