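import Pool.Agent.K9h83.BR.Almost
import Pool.Agent.K9h83.BR.Concave

/-!
# Families of convex functions
-/

set_option autoImplicit false

namespace Pool.Agent.K9h83.BR

open Finset MeasureTheory Filter Topology

theorem spread_convex {p q c : ℝ} (hpq : p ≤ q) (hc : 0 < c) (f : ℕ → ℝ → ℝ)
    (hf : ∀ d, 1 ≤ d → ConvexOn ℝ (Set.Icc p q) (f d) ∨ ConcaveOn ℝ (Set.Icc p q) (f d))
    (hfc : ∀ d, 1 ≤ d → ContinuousOn (f d) (Set.Icc p q))
    (hslope : ∀ d : ℕ, 1 ≤ d → ∀ x ∈ Set.Icc p q, ∀ y ∈ Set.Icc p q, x ≤ y →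
      c * d * (y - x) ≤ f d y - f d x) :
    (∀ d, Measurable fun α : ℝ => if d = 0 then 0 else f d (max p (min α q))) ∧
    Spread (volume.restrict (Set.Icc p q))
      (fun d α => if d = 0 then 0 else f d (max p (min α q))) (q - p + 2 / c) := by
  have hg : Continuous fun α : ℝ => max p (min α q) :=
    continuous_const.max (continuous_id.min continuous_const)
  have hgm : ∀ α : ℝ, max p (min α q) ∈ Set.Icc p q := fun α =>
    ⟨le_max_left _ _, max_le hpq (min_le_right _ _)⟩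
  have hgi : ∀ α ∈ Set.Icc p q, max p (min α q) = α := fun α hα => by
    rw [min_eq_left hα.2, max_eq_right hα.1]
  constructor
  · intro d
    by_cases hd : d = 0
    · simp only [hd, if_true]
      exact measurable_const
    · simp only [hd, if_false]
      exact ((hfc d (by omega)).comp_continuous hg hgm).measurable
  · intro d hd u
    have hd0 : (0 : ℝ) < d := by exact_mod_cast hd
    have hd' : d ≠ 0 := by omega
    simp only [hd', if_false]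
    rw [Measure.restrict_apply' measurableSet_Icc]
    have hsub : {α : ℝ | (d : ℤ) ∣ ⌊f d (max p (min α q))⌋ - u} ∩ Set.Icc p q ⊆
        {t | t ∈ Set.Icc p q ∧ (d : ℤ) ∣ ⌊f d t⌋ - u} := by
      rintro α ⟨h1, h2⟩
      refine ⟨h2, ?_⟩
      have h3 : (d : ℤ) ∣ ⌊f d (max p (min α q))⌋ - u := h1
      rwa [hgi α h2] at h3
    refine (measure_mono hsub).trans ?_
    have h : volume {t | t ∈ Set.Icc p q ∧ (d : ℤ) ∣ ⌊f d t⌋ - u} ≤
        ENNReal.ofReal ((q - p) / d + 2 / (c * d)) := by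
      rcases hf d hd with hcv | hcv
      · exact convex_class p q (c * d) hpq (by positivity) (f d) hcv (hfc d hd)
          (hslope d hd) d hd u
      · exact concave_class p q (c * d) hpq (by positivity) (f d) hcv (hfc d hd)
          (hslope d hd) d hd u
    refine h.trans (ENNReal.ofReal_le_ofReal (le_of_eq ?_))
    field_simp

theorem total_congr {κ : ℝ} {N Q : ℕ} {V : ℝ} {x y : ℕ → ℝ} (h : ∀ d, 1 ≤ d → x d = y d) :
    total κ N Q V x = total κ N Q V y := by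
  refine sum_congr rfl fun d hd => ?_
  rw [h d (mem_Icc.1 hd).1]

theorem cover_open {J : Set ℝ} (hJ : IsOpen J) :
    J ⊆ ⋃ r : {r : ℚ × ℚ // Set.Icc (r.1 : ℝ) (r.2 : ℝ) ⊆ J ∧ (r.1 : ℝ) ≤ r.2},
      Set.Icc (r.1.1 : ℝ) (r.1.2 : ℝ) := by
  intro α hα
  obtain ⟨ε, hε, hball⟩ := Metric.isOpen_iff.1 hJ α hα
  obtain ⟨p, hp1, hp2⟩ := exists_rat_btwn (show α - ε < α by linarith)
  obtain ⟨q, hq1, hq2⟩ := exists_rat_btwn (show α < α + ε by linarith)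
  rw [Set.mem_iUnion]
  refine ⟨⟨(p, q), ?_, by linarith⟩, ⟨hp2.le, hq1.le⟩⟩
  intro t ht
  apply hball
  rw [Metric.mem_ball, Real.dist_eq, abs_lt]
  constructor
  · have := ht.1
    simp only at this
    linarith
  · have := ht.2
    simp only at this
    linarith

/-- **Families of convex functions.** -/
theorem fam {P : (ℕ → ℝ) → Prop} (hP : ∀ x y : ℕ → ℝ, (∀ d, 1 ≤ d → x d = y d) → P x → P y)
    (h : ∀ (Ω : Type) [MeasurableSpace Ω] (μ : Measure Ω) (x : ℕ → Ω → ℝ) (C₀ : ℝ),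
      (∀ d, Measurable (x d)) → Spread μ x C₀ → ∀ᵐ ω ∂μ, P (fun d => x d ω))
    (J : Set ℝ) (hJ : IsOpen J) (c : ℝ) (hc : 0 < c) (f : ℕ → ℝ → ℝ)
    (hf : ∀ d, 1 ≤ d → ConvexOn ℝ J (f d) ∨ ConcaveOn ℝ J (f d))
    (hslope : ∀ d : ℕ, 1 ≤ d → ∀ x ∈ J, ∀ y ∈ J, x ≤ y → c * d * (y - x) ≤ f d y - f d x) :
    ∀ᵐ α : ℝ, α ∈ J → P (fun d => f d α) := by
  have hr : ∀ r : {r : ℚ × ℚ // Set.Icc (r.1 : ℝ) (r.2 : ℝ) ⊆ J ∧ (r.1 : ℝ) ≤ r.2},
      ∀ᵐ α : ℝ, α ∈ Set.Icc (r.1.1 : ℝ) (r.1.2 : ℝ) → P (fun d => f d α) := by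
    rintro ⟨⟨p, q⟩, hsub, hpq⟩
    simp only at hsub hpq ⊢
    have hcont : ∀ d, 1 ≤ d → ContinuousOn (f d) (Set.Icc (p : ℝ) q) := fun d hd => by
      rcases hf d hd with h1 | h1
      · exact (h1.continuousOn hJ).mono hsub
      · exact (h1.continuousOn hJ).mono hsub
    obtain ⟨h1, h2⟩ := spread_convex hpq hc f
      (fun d hd => (hf d hd).imp (fun h => h.subset hsub (convex_Icc _ _))
        fun h => h.subset hsub (convex_Icc _ _)) hcont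
      (fun d hd x hx y hy => hslope d hd x (hsub hx) y (hsub hy))
    have h3 := h ℝ (volume.restrict (Set.Icc (p : ℝ) q)) _ _ h1 h2
    rw [ae_restrict_iff' measurableSet_Icc] at h3
    filter_upwards [h3] with α hα hαm
    refine hP _ _ (fun d hd => ?_) (hα hαm)
    have hd' : d ≠ 0 := by omega
    simp only [hd', if_false]
    rw [min_eq_left hαm.2, max_eq_right hαm.1]
  have hall := ae_all_iff.2 hr
  filter_upwards [hall] with α hα hαJ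
  obtain ⟨r, hr⟩ := Set.mem_iUnion.1 (cover_open hJ hαJ)
  exact hα r hr

theorem mainR :
    ∃ B : ℝ → ℕ → ℕ,
      (∀ (Ω : Type) [MeasurableSpace Ω] (μ : Measure Ω) (x : ℕ → Ω → ℝ) (C₀ : ℝ),
        (∀ d, Measurable (x d)) → Spread μ x C₀ →
        ∀ᵐ ω ∂μ, ∀ κ : ℝ, 0 ≤ κ → ∀ U : ℕ, ∃ C : ℝ, ∀ N : ℕ, 3 ≤ N → ∀ Q : ℕ,
          (Q : ℝ) ≤ N / Real.log N ^ B κ U →
          total κ N Q (N / Real.log N ^ B κ U) (fun d => x d ω) ≤ C * (N / Real.log N ^ U)) ∧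
      ∀ (J : Set ℝ), IsOpen J → ∀ c : ℝ, 0 < c → ∀ f : ℕ → ℝ → ℝ,
        (∀ d, 1 ≤ d → ConvexOn ℝ J (f d) ∨ ConcaveOn ℝ J (f d)) →
        (∀ d : ℕ, 1 ≤ d → ∀ x ∈ J, ∀ y ∈ J, x ≤ y → c * d * (y - x) ≤ f d y - f d x) →
        ∀ᵐ α : ℝ, α ∈ J → ∀ κ : ℝ, 0 ≤ κ → ∀ U : ℕ, ∃ C : ℝ, ∀ N : ℕ, 3 ≤ N → ∀ Q : ℕ,
          (Q : ℝ) ≤ N / Real.log N ^ B κ U →
          total κ N Q (N / Real.log N ^ B κ U) (fun d => f d α) ≤ C * (N / Real.log N ^ U) := by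
  obtain ⟨B, hB⟩ := almost_all
  refine ⟨B, hB, ?_⟩
  intro J hJ c hc f hf hslope
  refine fam (P := fun x => ∀ κ : ℝ, 0 ≤ κ → ∀ U : ℕ, ∃ C : ℝ, ∀ N : ℕ, 3 ≤ N → ∀ Q : ℕ,
    (Q : ℝ) ≤ N / Real.log N ^ B κ U →
    total κ N Q (N / Real.log N ^ B κ U) x ≤ C * (N / Real.log N ^ U)) ?_ hB J hJ c hc f hf hslope
  intro x y hxy hx κ hκ U
  obtain ⟨C, hC⟩ := hx κ hκ U
  refine ⟨C, fun N hN Q hQ => ?_⟩
  rw [← total_congr hxy]
  exact hC N hN Q hQ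

end Pool.Agent.K9h83.BR
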