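import Pool.Agent.K9h83.BR.Parts

/-!
# All real numbers
-/

set_option autoImplicit false

namespace Pool.Agent.K9h83.BR

open Finset MeasureTheory Filter Topology

theorem cover {P : (ℕ → ℝ) → Prop} {F G : ℕ → ℝ} :
    {α : ℝ | ¬ P (fun d => α * F d + G d)} ⊆ ⋃ m : ℤ, (fun y : ℝ => y + m) ''
      {α : ℝ | (0 ≤ α ∧ α < 1) ∧ ¬ P (fun d => α * F d + (G d + m * F d))} := by
  intro α hα
  rw [Set.mem_iUnion]
  refine ⟨⌊α⌋, α - ⌊α⌋, ⟨⟨by linarith [Int.floor_le α], by linarith [Int.lt_floor_add_one α]⟩, ?_⟩,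
    by simp⟩
  have : (fun d => (α - ⌊α⌋) * F d + (G d + ⌊α⌋ * F d)) = fun d => α * F d + G d := by
    funext d
    ring
  rw [this]
  exact hα

theorem dim_extend {P : (ℕ → ℝ) → Prop} {F : ℕ → ℝ} {D : ENNReal}
    (h : ∀ G : ℕ → ℝ, dimH {α : ℝ | (0 ≤ α ∧ α < 1) ∧ ¬ P (fun d => α * F d + G d)} ≤ D)
    (G : ℕ → ℝ) : dimH {α : ℝ | ¬ P (fun d => α * F d + G d)} ≤ D := by
  refine (dimH_mono cover).trans ?_
  rw [dimH_iUnion]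
  refine iSup_le fun m => ?_
  rw [(isometry_add_right (m : ℝ)).dimH_image]
  exact h _

theorem null_extend {P : (ℕ → ℝ) → Prop} {F : ℕ → ℝ}
    (h : ∀ G : ℕ → ℝ, (volume : Measure ℝ) {α : ℝ | (0 ≤ α ∧ α < 1) ∧
      ¬ P (fun d => α * F d + G d)} = 0)
    (G : ℕ → ℝ) : ∀ᵐ α : ℝ, P (fun d => α * F d + G d) := by
  rw [ae_iff]
  refine measure_mono_null cover ?_
  rw [measure_iUnion_null_iff]
  intro m
  rw [Set.image_add_right, measure_preimage_add_right]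
  exact h _

theorem main :
    (∃ B : ℝ → ℕ → ℕ, ∀ c : ℝ, 0 < c → ∀ F G : ℕ → ℝ, (∀ d : ℕ, 1 ≤ d → c * d ≤ F d) →
      ∀ᵐ α : ℝ, ∀ κ : ℝ, 0 ≤ κ → ∀ U : ℕ, ∃ C : ℝ, ∀ N : ℕ, 3 ≤ N → ∀ Q : ℕ,
        (Q : ℝ) ≤ N / Real.log N ^ B κ U →
        total κ N Q (N / Real.log N ^ B κ U) (fun d => α * F d + G d) ≤
          C * (N / Real.log N ^ U)) ∧
    (∀ c K k θ τ : ℝ, 0 < c → 0 < K → 0 < k → 0 < θ → θ ≤ τ → τ < 1 → ∀ F G : ℕ → ℝ,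
      (∀ d : ℕ, 1 ≤ d → c * d ≤ F d ∧ F d ≤ K * (d : ℝ) ^ k) →
      dimH {α : ℝ | ¬ ∀ κ : ℝ, 0 ≤ κ → ∀ U : ℕ, ∃ C : ℝ, ∀ N : ℕ, 3 ≤ N → ∀ Q : ℕ,
        (Q : ℝ) ≤ (N : ℝ) ^ θ →
        total κ N Q ((N : ℝ) ^ τ) (fun d => α * F d + G d) ≤ C * (N / Real.log N ^ U)} ≤
        ENNReal.ofReal (1 - (1 - τ) / (k * θ))) := by
  constructor
  · have hn : ∀ n U : ℕ, ∃ B : ℕ, ∀ c : ℝ, 0 < c → ∀ F : ℕ → ℝ,
        (∀ d : ℕ, 1 ≤ d → c * d ≤ F d) → ∀ G : ℕ → ℝ,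
        (volume : Measure ℝ) {α : ℝ | (0 ≤ α ∧ α < 1) ∧ ¬ ∃ C : ℝ, ∀ N : ℕ, 3 ≤ N → ∀ Q : ℕ,
          (Q : ℝ) ≤ N / Real.log N ^ B →
          total ((n : ℝ) + 1) N Q (N / Real.log N ^ B) (fun d => α * F d + G d) ≤
            C * (N / Real.log N ^ U)} = 0 := fun n U =>
      null_unit ((n : ℝ) + 1) (by linarith [Nat.cast_nonneg (α := ℝ) n]) U
    choose B hB using hn
    refine ⟨fun κ U => B ⌈κ⌉₊ U, ?_⟩
    intro c hc F G hF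
    have hall : ∀ᵐ α : ℝ, ∀ n U : ℕ, ∃ C : ℝ, ∀ N : ℕ, 3 ≤ N → ∀ Q : ℕ,
        (Q : ℝ) ≤ N / Real.log N ^ B n U →
        total ((n : ℝ) + 1) N Q (N / Real.log N ^ B n U) (fun d => α * F d + G d) ≤
          C * (N / Real.log N ^ U) := by
      rw [ae_all_iff]
      intro n
      rw [ae_all_iff]
      intro U
      exact null_extend (P := fun x => ∃ C : ℝ, ∀ N : ℕ, 3 ≤ N → ∀ Q : ℕ,
        (Q : ℝ) ≤ N / Real.log N ^ B n U →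
        total ((n : ℝ) + 1) N Q (N / Real.log N ^ B n U) x ≤ C * (N / Real.log N ^ U))
        (hB n U c hc F hF) G
    filter_upwards [hall] with α hα κ hκ U
    obtain ⟨C, hC⟩ := hα ⌈κ⌉₊ U
    refine ⟨C, fun N hN Q hQ => (total_mono_weight hκ ?_ N Q _ _).trans (hC N hN Q hQ)⟩
    linarith [Nat.le_ceil κ]
  · intro c K k θ τ hc hK hk hθ hθτ hτ F G hF
    have hsub : {α : ℝ | ¬ ∀ κ : ℝ, 0 ≤ κ → ∀ U : ℕ, ∃ C : ℝ, ∀ N : ℕ, 3 ≤ N → ∀ Q : ℕ,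
        (Q : ℝ) ≤ (N : ℝ) ^ θ →
        total κ N Q ((N : ℝ) ^ τ) (fun d => α * F d + G d) ≤ C * (N / Real.log N ^ U)} ⊆
        ⋃ (n : ℕ) (U : ℕ), {α : ℝ | ¬ ∃ C : ℝ, ∀ N : ℕ, 3 ≤ N → ∀ Q : ℕ,
        (Q : ℝ) ≤ (N : ℝ) ^ θ →
        total ((n : ℝ) + 1) N Q ((N : ℝ) ^ τ) (fun d => α * F d + G d) ≤
          C * (N / Real.log N ^ U)} := by
      intro α hα
      by_contra hcon
      refine hα fun κ hκ U => ?_
      have hcon' : ∃ C : ℝ, ∀ N : ℕ, 3 ≤ N → ∀ Q : ℕ, (Q : ℝ) ≤ (N : ℝ) ^ θ →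
          total ((⌈κ⌉₊ : ℝ) + 1) N Q ((N : ℝ) ^ τ) (fun d => α * F d + G d) ≤
            C * (N / Real.log N ^ U) := by
        by_contra h
        exact hcon (Set.mem_iUnion₂.2 ⟨⌈κ⌉₊, U, h⟩)
      obtain ⟨C, hC⟩ := hcon'
      refine ⟨C, fun N hN Q hQ => (total_mono_weight hκ ?_ N Q _ _).trans (hC N hN Q hQ)⟩
      linarith [Nat.le_ceil κ]
    refine (dimH_mono hsub).trans ?_
    rw [dimH_iUnion]
    refine iSup_le fun n => ?_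
    rw [dimH_iUnion]
    refine iSup_le fun U => ?_
    exact dim_extend (P := fun x => ∃ C : ℝ, ∀ N : ℕ, 3 ≤ N → ∀ Q : ℕ,
        (Q : ℝ) ≤ (N : ℝ) ^ θ →
        total ((n : ℝ) + 1) N Q ((N : ℝ) ^ τ) x ≤ C * (N / Real.log N ^ U))
      (dim_unit ((n : ℝ) + 1) (by linarith [Nat.cast_nonneg (α := ℝ) n]) U hc hK hk hθ hθτ hτ F hF)
      G

end Pool.Agent.K9h83.BR
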