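import Pool.Agent.K9h83.BR.Scale

/-!
# From the dyadic scales to all `N`
-/

set_option autoImplicit false

namespace Pool.Agent.K9h83.BR

open Finset

/-- the dyadic scale used for `N` -/
def scaleOf (N : ℕ) : ℕ := max 3 (Nat.clog 2 N)

theorem scaleOf_ge (N : ℕ) : 3 ≤ scaleOf N := le_max_left _ _

theorem le_two_pow_scaleOf (N : ℕ) : N ≤ 2 ^ scaleOf N :=
  (Nat.le_pow_clog (by norm_num) N).trans (Nat.pow_le_pow_right (by norm_num) (le_max_right _ _))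

theorem two_pow_scaleOf_le {N : ℕ} (hN : 3 ≤ N) : 2 ^ scaleOf N ≤ 4 * N := by
  unfold scaleOf
  rcases le_total (Nat.clog 2 N) 3 with h | h
  · rw [max_eq_left h]
    omega
  · rw [max_eq_right h]
    have h1 : Nat.clog 2 N ≠ 0 := by omega
    have h2 : 2 ^ (Nat.clog 2 N).pred < N := Nat.pow_pred_clog_lt_self (by norm_num) (by omega)
    have h3 : 2 ^ Nat.clog 2 N = 2 * 2 ^ (Nat.clog 2 N).pred := by
      obtain ⟨m, hm⟩ := Nat.exists_eq_succ_of_ne_zero h1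
      rw [hm, Nat.pred_succ, Nat.pow_succ]
      ring
    omega

/-- **The limit.** -/
theorem limit {κ : ℝ} (hκ : 0 ≤ κ) {U : ℕ} {F G : ℕ → ℝ} {R Q : ℕ → ℕ} {V : ℕ → ℝ}
    {Bad : ℕ → Finset ℕ} {C : ℝ} (hC : 0 ≤ C)
    (h : ∀ j, 3 ≤ j → ∀ i < R j, i ∉ Bad j → ∀ α : ℝ, (i : ℝ) / R j ≤ α →
      α < ((i : ℝ) + 1) / R j → ∀ Q' ≤ Q j, ∀ V' ≤ V j,
      total κ (2 ^ j) Q' V' (fun d => α * F d + G d) ≤ C * ((2 : ℝ) ^ j / Real.log (2 ^ j) ^ U))
    (hR : ∀ j, 1 ≤ R j) {α : ℝ} (hα0 : 0 ≤ α) (hα1 : α < 1) (hα : α ∉ Often R Bad) :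
    ∃ C' : ℝ, ∀ N : ℕ, 3 ≤ N → ∀ Q' ≤ Q (scaleOf N), ∀ V' ≤ V (scaleOf N),
      total κ N Q' V' (fun d => α * F d + G d) ≤ C' * (N / Real.log N ^ U) := by
  classical
  have hfin : {j : ℕ | ∃ i ∈ Bad j, (i : ℝ) / R j ≤ α ∧ α < ((i : ℝ) + 1) / R j}.Finite := by
    by_contra hcon
    exact hα hcon
  let S : Finset ℕ := hfin.toFinset
  let T : ℕ → ℝ := fun j => total κ (2 ^ j) (Q j) (V j) (fun d => α * F d + G d) /
    ((2 : ℝ) ^ j / Real.log (2 ^ j) ^ U)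
  have htot0 : ∀ (N Q' : ℕ) (V' : ℝ), 0 ≤ total κ N Q' V' (fun d => α * F d + G d) :=
    fun N Q' V' => total_nonneg hκ _ _ _ _
  have hlog2 : ∀ j : ℕ, 1 ≤ j → 0 < Real.log ((2 : ℝ) ^ j) := by
    intro j hj
    refine Real.log_pos ?_
    exact one_lt_pow₀ (by norm_num) (by omega)
  have hVp : ∀ j : ℕ, 1 ≤ j → 0 < (2 : ℝ) ^ j / Real.log ((2 : ℝ) ^ j) ^ U := by
    intro j hj
    have := hlog2 j hj
    positivity
  have hT0 : ∀ j : ℕ, 1 ≤ j → 0 ≤ T j := fun j hj => div_nonneg (htot0 _ _ _) (hVp j hj).le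
  let C₁ : ℝ := C + ∑ j ∈ S.filter (fun j => 3 ≤ j), T j
  have hsum0 : 0 ≤ ∑ j ∈ S.filter (fun j => 3 ≤ j), T j :=
    sum_nonneg fun j hj => hT0 j (by have := (mem_filter.1 hj).2; omega)
  have hC₁ : 0 ≤ C₁ := add_nonneg hC hsum0
  have hscale : ∀ j, 3 ≤ j → ∀ Q' ≤ Q j, ∀ V' ≤ V j,
      total κ (2 ^ j) Q' V' (fun d => α * F d + G d) ≤
        C₁ * ((2 : ℝ) ^ j / Real.log (2 ^ j) ^ U) := by
    intro j hj Q' hQ' V' hV'
    have hV := hVp j (by omega)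
    by_cases hjS : j ∈ S
    · have h1 : total κ (2 ^ j) (Q j) (V j) (fun d => α * F d + G d) =
          T j * ((2 : ℝ) ^ j / Real.log (2 ^ j) ^ U) := (div_mul_cancel₀ _ hV.ne').symm
      have h2 : T j ≤ ∑ j ∈ S.filter (fun j => 3 ≤ j), T j :=
        single_le_sum (f := T) (fun i hi => hT0 i (by have := (mem_filter.1 hi).2; omega))
          (mem_filter.2 ⟨hjS, hj⟩)
      calc _ ≤ total κ (2 ^ j) (Q j) (V j) (fun d => α * F d + G d) :=
            total_mono hκ le_rfl hQ' hV' _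
        _ = T j * ((2 : ℝ) ^ j / Real.log (2 ^ j) ^ U) := h1
        _ ≤ _ := mul_le_mul_of_nonneg_right (by linarith) hV.le
    · have hRp : (0 : ℝ) < R j := by
        have : 0 < R j := hR j
        exact_mod_cast this
      have hi0 : 0 ≤ α * R j := mul_nonneg hα0 hRp.le
      have h1 : ((⌊α * R j⌋₊ : ℕ) : ℝ) / R j ≤ α := by
        rw [div_le_iff₀ hRp]
        exact Nat.floor_le hi0
      have h2 : α < (((⌊α * R j⌋₊ : ℕ) : ℝ) + 1) / R j := by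
        rw [lt_div_iff₀ hRp]
        exact Nat.lt_floor_add_one _
      have h3 : ⌊α * R j⌋₊ < R j := by
        rw [Nat.floor_lt hi0]
        nlinarith
      have h4 : ⌊α * R j⌋₊ ∉ Bad j := by
        intro hbad
        exact hjS (hfin.mem_toFinset.2 ⟨_, hbad, h1, h2⟩)
      exact (h j hj _ h3 h4 α h1 h2 Q' hQ' V' hV').trans
        (mul_le_mul_of_nonneg_right (by linarith) hV.le)
  refine ⟨4 * C₁, ?_⟩
  intro N hN Q' hQ' V' hV'
  have hNr : (3 : ℝ) ≤ N := by exact_mod_cast hN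
  have hle : (N : ℝ) ≤ (2 : ℝ) ^ scaleOf N := by exact_mod_cast le_two_pow_scaleOf N
  have hge : (2 : ℝ) ^ scaleOf N ≤ 4 * N := by exact_mod_cast two_pow_scaleOf_le hN
  have hlogN : 0 < Real.log N := Real.log_pos (by linarith)
  have hlog : Real.log N ≤ Real.log ((2 : ℝ) ^ scaleOf N) := Real.log_le_log (by linarith) hle
  calc total κ N Q' V' (fun d => α * F d + G d)
      ≤ total κ (2 ^ scaleOf N) Q' V' (fun d => α * F d + G d) :=
        total_mono hκ (le_two_pow_scaleOf N) le_rfl le_rfl _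
    _ ≤ C₁ * ((2 : ℝ) ^ scaleOf N / Real.log (2 ^ scaleOf N) ^ U) :=
        hscale _ (scaleOf_ge N) Q' hQ' V' hV'
    _ ≤ C₁ * ((4 * N) / Real.log N ^ U) := by
        refine mul_le_mul_of_nonneg_left ?_ hC₁
        exact div_le_div₀ (by positivity) hge (by positivity)
          (pow_le_pow_left₀ hlogN.le hlog _)
    _ = 4 * C₁ * (N / Real.log N ^ U) := by ring

end Pool.Agent.K9h83.BR
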