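import Pool.Agent.K9h83.BR.Limit

/-!
# The two parts of the theorem
-/

set_option autoImplicit false

namespace Pool.Agent.K9h83.BR

open Finset MeasureTheory Filter Topology

theorem log_two_pow_le (j : ℕ) : Real.log ((2 : ℝ) ^ j) ≤ j := by
  rw [Real.log_pow]
  have h1 := Real.log_two_lt_d9
  have h2 : (0 : ℝ) ≤ j := Nat.cast_nonneg _
  nlinarith

/-- the bad cells of all the scales -/
theorem bad_sets (κ : ℝ) (hκ : 1 ≤ κ) (U : ℕ) : ∃ K₁ : ℕ, ∀ (c : ℝ), 0 < c →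
    ∀ (F G : ℕ → ℝ) (R Q : ℕ → ℕ) (V : ℕ → ℝ), (∀ j, 1 ≤ R j) → (∀ j, Q j ≤ 2 ^ j) →
    (∀ j, (Q j : ℝ) ≤ V j) → (∀ j d, 1 ≤ d → d ≤ Q j → c * d ≤ F d ∧ F d ≤ R j) →
    ∃ Bad : ℕ → Finset ℕ,
      (∀ j, ((Bad j).card : ℝ) ≤ 20 * (1 + 3 / c) * (R j * (V j * (j : ℝ) ^ K₁ / 2 ^ j))) ∧
      ∀ α : ℝ, 0 ≤ α → α < 1 → α ∉ Often R Bad → ∃ C' : ℝ, ∀ N : ℕ, 3 ≤ N →
        ∀ Q' ≤ Q (scaleOf N), ∀ V' ≤ V (scaleOf N),
        total κ N Q' V' (fun d => α * F d + G d) ≤ C' * (N / Real.log N ^ U) := by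
  classical
  obtain ⟨K₁, C, hC, h0⟩ := scale κ hκ U
  refine ⟨K₁, ?_⟩
  intro c hc F G R Q V hR hQ hQV hF
  have hV0 : ∀ j, 0 ≤ V j := fun j => (Nat.cast_nonneg _).trans (hQV j)
  have hb : ∀ j : ℕ, ∃ Bad : Finset ℕ,
      ((Bad.card : ℝ) ≤ 20 * (1 + 3 / c) * (R j * (V j * (j : ℝ) ^ K₁ / 2 ^ j))) ∧
      (3 ≤ j → ∀ i < R j, i ∉ Bad → ∀ α : ℝ, (i : ℝ) / R j ≤ α → α < ((i : ℝ) + 1) / R j →
        ∀ Q' ≤ Q j, ∀ V' ≤ V j, total κ (2 ^ j) Q' V' (fun d => α * F d + G d) ≤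
          C * ((2 : ℝ) ^ j / Real.log (2 ^ j) ^ U)) := by
    intro j
    by_cases hj : 3 ≤ j
    · have h8 : 8 ≤ 2 ^ j := by
        calc 8 = 2 ^ 3 := by norm_num
          _ ≤ 2 ^ j := Nat.pow_le_pow_right (by norm_num) hj
      obtain ⟨Bad, h1, h2⟩ := h0 (2 ^ j) h8 (Q j) (hQ j) (V j) (hQV j) c hc F G (R j) (hR j)
        (hF j)
      have hcast : (((2 ^ j : ℕ) : ℕ) : ℝ) = (2 : ℝ) ^ j := by push_cast; rfl
      rw [hcast] at h1 h2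
      refine ⟨Bad, h1.trans ?_, fun _ => h2⟩
      have hlog0 : 0 ≤ Real.log ((2 : ℝ) ^ j) := Real.log_nonneg (one_le_pow₀ (by norm_num))
      have hl : Real.log ((2 : ℝ) ^ j) ^ K₁ ≤ (j : ℝ) ^ K₁ :=
        pow_le_pow_left₀ hlog0 (log_two_pow_le j) _
      have hVj := hV0 j
      gcongr
    · refine ⟨∅, ?_, fun h => absurd h hj⟩
      rw [card_empty, Nat.cast_zero]
      have hVj := hV0 j
      positivity
  choose Bad hB1 hB2 using hb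
  refine ⟨Bad, hB1, ?_⟩
  intro α hα0 hα1 hα
  exact limit (by linarith) hC hB2 hR hα0 hα1 hα

/-- **The dimension, on the unit interval.** -/
theorem dim_unit (κ : ℝ) (hκ : 1 ≤ κ) (U : ℕ) {c K k θ τ : ℝ} (hc : 0 < c) (hK : 0 < K)
    (hk : 0 < k) (hθ : 0 < θ) (hθτ : θ ≤ τ) (hτ : τ < 1) (F : ℕ → ℝ)
    (hF : ∀ d : ℕ, 1 ≤ d → c * d ≤ F d ∧ F d ≤ K * (d : ℝ) ^ k) (G : ℕ → ℝ) :
    dimH {α : ℝ | (0 ≤ α ∧ α < 1) ∧ ¬ ∃ C : ℝ, ∀ N : ℕ, 3 ≤ N → ∀ Q : ℕ, (Q : ℝ) ≤ (N : ℝ) ^ θ →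
      total κ N Q ((N : ℝ) ^ τ) (fun d => α * F d + G d) ≤ C * (N / Real.log N ^ U)} ≤
    ENNReal.ofReal (1 - (1 - τ) / (k * θ)) := by
  classical
  obtain ⟨K₁, h0⟩ := bad_sets κ hκ U
  set x : ℝ := (2 : ℝ) ^ (θ * k) with hxdef
  have hx0 : 0 < x := Real.rpow_pos_of_pos (by norm_num) _
  have hx1 : 1 ≤ x := Real.one_le_rpow (by norm_num) (by positivity)
  let Q : ℕ → ℕ := fun j => ⌊((2 : ℝ) ^ j) ^ θ⌋₊
  let V : ℕ → ℝ := fun j => ((2 : ℝ) ^ j) ^ τ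
  let R : ℕ → ℕ := fun j => ⌈K * x ^ j⌉₊
  have h2j : ∀ j : ℕ, (1 : ℝ) ≤ (2 : ℝ) ^ j := fun j => one_le_pow₀ (by norm_num)
  have hR : ∀ j, 1 ≤ R j := fun j => Nat.one_le_ceil_iff.2 (by positivity)
  have hRp : ∀ j, (0 : ℝ) < R j := fun j => by
    have : 0 < R j := hR j
    exact_mod_cast this
  have hRlo : ∀ j, K * x ^ j ≤ R j := fun j => Nat.le_ceil _
  have hRhi : ∀ j, (R j : ℝ) ≤ (K + 1) * x ^ j := fun j => by
    have h1 := (Nat.ceil_lt_add_one (show 0 ≤ K * x ^ j by positivity)).le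
    have h2 : 1 ≤ x ^ j := one_le_pow₀ hx1
    show ((⌈K * x ^ j⌉₊ : ℕ) : ℝ) ≤ _
    nlinarith
  have hQfl : ∀ j, (Q j : ℝ) ≤ ((2 : ℝ) ^ j) ^ θ := fun j => Nat.floor_le (by positivity)
  have hQle : ∀ j, Q j ≤ 2 ^ j := fun j => by
    have h1 : ((2 : ℝ) ^ j) ^ θ ≤ (2 : ℝ) ^ j := by
      calc ((2 : ℝ) ^ j) ^ θ ≤ ((2 : ℝ) ^ j) ^ (1 : ℝ) :=
            Real.rpow_le_rpow_of_exponent_le (h2j j) (by linarith)
        _ = (2 : ℝ) ^ j := Real.rpow_one _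
    have h2 : (Q j : ℝ) ≤ ((2 ^ j : ℕ) : ℝ) := by
      push_cast
      exact (hQfl j).trans h1
    exact_mod_cast h2
  have hQV : ∀ j, (Q j : ℝ) ≤ V j := fun j =>
    (hQfl j).trans (Real.rpow_le_rpow_of_exponent_le (h2j j) hθτ)
  have hFR : ∀ j d, 1 ≤ d → d ≤ Q j → c * d ≤ F d ∧ F d ≤ R j := by
    intro j d hd hdQ
    refine ⟨(hF d hd).1, (hF d hd).2.trans (le_trans ?_ (hRlo j))⟩
    refine mul_le_mul_of_nonneg_left ?_ hK.le
    have h1 : (d : ℝ) ≤ ((2 : ℝ) ^ j) ^ θ := (Nat.cast_le.2 hdQ).trans (hQfl j)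
    calc (d : ℝ) ^ k ≤ (((2 : ℝ) ^ j) ^ θ) ^ k := Real.rpow_le_rpow (Nat.cast_nonneg _) h1 hk.le
      _ = x ^ j := by
        rw [← Real.rpow_mul (by positivity), hxdef, ← Real.rpow_natCast, ← Real.rpow_natCast,
          ← Real.rpow_mul (by norm_num), ← Real.rpow_mul (by norm_num), mul_comm]
  obtain ⟨Bad, hB1, hB2⟩ := h0 c hc F G R Q V hR hQle hQV hFR
  have hkθ : 0 < k * θ := mul_pos hk hθ
  -- the set is in `Often`
  have hsub : {α : ℝ | (0 ≤ α ∧ α < 1) ∧ ¬ ∃ C : ℝ, ∀ N : ℕ, 3 ≤ N → ∀ Q : ℕ,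
      (Q : ℝ) ≤ (N : ℝ) ^ θ → total κ N Q ((N : ℝ) ^ τ) (fun d => α * F d + G d) ≤
        C * (N / Real.log N ^ U)} ⊆ Often R Bad := by
    rintro α ⟨⟨hα0, hα1⟩, hα⟩
    by_contra hcon
    apply hα
    obtain ⟨C', hC'⟩ := hB2 α hα0 hα1 hcon
    refine ⟨C', fun N hN Q' hQ' => hC' N hN Q' ?_ _ ?_⟩
    · refine Nat.le_floor (hQ'.trans ?_)
      exact Real.rpow_le_rpow (Nat.cast_nonneg _) (by exact_mod_cast le_two_pow_scaleOf N) hθ.le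
    · exact Real.rpow_le_rpow (Nat.cast_nonneg _) (by exact_mod_cast le_two_pow_scaleOf N)
        (by linarith)
  -- the dimension is at most `D`
  have hD : ∀ D : ℝ, 0 < D → D ≤ 1 → 1 - (1 - τ) / (k * θ) < D →
      dimH (Often R Bad) ≤ ENNReal.ofReal D := by
    intro D hD0 hD1 hD
    refine dim_often hR hD0 ?_
    have hρ : ‖x ^ (1 - D) * 2 ^ τ / 2‖ < 1 := by
      have e : x ^ (1 - D) * 2 ^ τ / 2 = (2 : ℝ) ^ (θ * k * (1 - D) + τ - 1) := by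
        rw [hxdef, ← Real.rpow_mul (by norm_num), Real.rpow_sub (by norm_num), Real.rpow_one,
          Real.rpow_add (by norm_num)]
      rw [e, Real.norm_eq_abs, abs_of_pos (Real.rpow_pos_of_pos (by norm_num) _)]
      refine Real.rpow_lt_one_of_one_lt_of_neg (by norm_num) ?_
      have h1 : 1 - D < (1 - τ) / (k * θ) := by linarith
      rw [lt_div_iff₀ hkθ] at h1
      linarith
    have hs := (summable_pow_mul_geometric_of_norm_lt_one K₁ hρ).mul_left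
      (20 * (1 + 3 / c) * (K + 1) ^ (1 - D))
    refine Summable.of_nonneg_of_le (fun j => by positivity) (fun j => ?_) hs
    have hVj : (0 : ℝ) ≤ V j := by
      show 0 ≤ ((2 : ℝ) ^ j) ^ τ
      positivity
    calc ((Bad j).card : ℝ) * (1 / (R j : ℝ)) ^ D
        ≤ (20 * (1 + 3 / c) * (R j * (V j * (j : ℝ) ^ K₁ / 2 ^ j))) * (1 / (R j : ℝ)) ^ D :=
          mul_le_mul_of_nonneg_right (hB1 j) (by positivity)
      _ = 20 * (1 + 3 / c) * (V j * (j : ℝ) ^ K₁ / 2 ^ j) * (R j : ℝ) ^ (1 - D) := by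
          rw [Real.rpow_sub (hRp j), Real.rpow_one, one_div, Real.inv_rpow (hRp j).le]
          have : ((R j : ℝ) ^ D) ≠ 0 := (Real.rpow_pos_of_pos (hRp j) _).ne'
          field_simp
      _ ≤ 20 * (1 + 3 / c) * (V j * (j : ℝ) ^ K₁ / 2 ^ j) * ((K + 1) * x ^ j) ^ (1 - D) :=
          mul_le_mul_of_nonneg_left
            (Real.rpow_le_rpow (hRp j).le (hRhi j) (by linarith)) (by positivity)
      _ = 20 * (1 + 3 / c) * (K + 1) ^ (1 - D) *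
            ((j : ℝ) ^ K₁ * (x ^ (1 - D) * 2 ^ τ / 2) ^ j) := by
          have e1 : V j = ((2 : ℝ) ^ τ) ^ j := by
            show ((2 : ℝ) ^ j) ^ τ = _
            rw [← Real.rpow_natCast, ← Real.rpow_natCast, ← Real.rpow_mul (by norm_num),
              ← Real.rpow_mul (by norm_num), mul_comm]
          have e2 : ((K + 1) * x ^ j) ^ (1 - D) = (K + 1) ^ (1 - D) * (x ^ (1 - D)) ^ j := by
            rw [Real.mul_rpow (by positivity) (by positivity), ← Real.rpow_natCast x,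
              ← Real.rpow_natCast (x ^ (1 - D)), ← Real.rpow_mul hx0.le, ← Real.rpow_mul hx0.le,
              mul_comm (j : ℝ)]
          rw [e1, e2, div_pow, mul_pow]
          ring
  refine (dimH_mono hsub).trans ?_
  refine ENNReal.le_of_forall_pos_le_add fun ε hε _ => ?_
  have hε' : (0 : ℝ) < ε := by exact_mod_cast hε
  have hD0 : 1 - (1 - τ) / (k * θ) < 1 := by
    have : 0 < (1 - τ) / (k * θ) := div_pos (by linarith) hkθ
    linarith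
  have h1 := hD (min (max (1 - (1 - τ) / (k * θ)) 0 + ε) 1)
    (lt_min (by linarith [le_max_right (1 - (1 - τ) / (k * θ)) 0]) one_pos)
    (min_le_right _ _)
    (lt_min (by linarith [le_max_left (1 - (1 - τ) / (k * θ)) 0]) hD0)
  refine h1.trans ((ENNReal.ofReal_le_ofReal (min_le_left _ _)).trans
    (ENNReal.ofReal_add_le.trans ?_))
  rw [ENNReal.ofReal_coe_nnreal]
  refine add_le_add (le_of_eq ?_) le_rfl
  rcases le_total (1 - (1 - τ) / (k * θ)) 0 with h | h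
  · rw [max_eq_right h, ENNReal.ofReal_zero, ENNReal.ofReal_of_nonpos h]
  · rw [max_eq_left h]

/-- **Almost all numbers of the unit interval.** -/
theorem null_unit (κ : ℝ) (hκ : 1 ≤ κ) (U : ℕ) : ∃ B : ℕ, ∀ c : ℝ, 0 < c → ∀ F : ℕ → ℝ,
    (∀ d : ℕ, 1 ≤ d → c * d ≤ F d) → ∀ G : ℕ → ℝ,
    (volume : Measure ℝ) {α : ℝ | (0 ≤ α ∧ α < 1) ∧ ¬ ∃ C : ℝ, ∀ N : ℕ, 3 ≤ N → ∀ Q : ℕ,
      (Q : ℝ) ≤ N / Real.log N ^ B →
      total κ N Q (N / Real.log N ^ B) (fun d => α * F d + G d) ≤ C * (N / Real.log N ^ U)} =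
      0 := by
  classical
  obtain ⟨K₁, h0⟩ := bad_sets κ hκ U
  refine ⟨K₁ + 2, ?_⟩
  intro c hc F hF G
  let V : ℕ → ℝ := fun j => 6 ^ (K₁ + 2) * ((2 : ℝ) ^ j / (j : ℝ) ^ (K₁ + 2))
  let Q : ℕ → ℕ := fun j => min (2 ^ j) ⌊V j⌋₊
  have hV0 : ∀ j, 0 ≤ V j := fun j => by
    show 0 ≤ 6 ^ (K₁ + 2) * ((2 : ℝ) ^ j / (j : ℝ) ^ (K₁ + 2))
    positivity
  let R : ℕ → ℕ := fun j => ⌈∑ d ∈ Icc 1 (Q j), |F d|⌉₊ + 1
  have hR : ∀ j, 1 ≤ R j := fun j => Nat.le_add_left _ _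
  have hRp : ∀ j, (0 : ℝ) < R j := fun j => by
    have : 0 < R j := hR j
    exact_mod_cast this
  have hFR : ∀ j d, 1 ≤ d → d ≤ Q j → c * d ≤ F d ∧ F d ≤ R j := by
    intro j d hd hdQ
    refine ⟨hF d hd, ?_⟩
    have h1 : |F d| ≤ ∑ d ∈ Icc 1 (Q j), |F d| :=
      single_le_sum (f := fun d => |F d|) (fun i _ => abs_nonneg _) (mem_Icc.2 ⟨hd, hdQ⟩)
    have h2 : ∑ d ∈ Icc 1 (Q j), |F d| ≤ (⌈∑ d ∈ Icc 1 (Q j), |F d|⌉₊ : ℝ) := Nat.le_ceil _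
    have h3 : (R j : ℝ) = (⌈∑ d ∈ Icc 1 (Q j), |F d|⌉₊ : ℝ) + 1 := by
      show ((⌈∑ d ∈ Icc 1 (Q j), |F d|⌉₊ + 1 : ℕ) : ℝ) = _
      push_cast
      rfl
    linarith [le_abs_self (F d)]
  obtain ⟨Bad, hB1, hB2⟩ := h0 c hc F G R Q V hR (fun j => min_le_left _ _) (fun j => by
    have h1 : ((Q j : ℕ) : ℝ) ≤ (⌊V j⌋₊ : ℝ) := by exact_mod_cast min_le_right _ _
    exact h1.trans (Nat.floor_le (hV0 j))) hFR
  refine measure_mono_null ?_ (null_often hR (Bad := Bad) ?_)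
  · rintro α ⟨⟨hα0, hα1⟩, hα⟩
    by_contra hcon
    apply hα
    obtain ⟨C', hC'⟩ := hB2 α hα0 hα1 hcon
    refine ⟨C', fun N hN Q' hQ' => ?_⟩
    have hNr : (3 : ℝ) ≤ N := by exact_mod_cast hN
    have hlog1 : 1 ≤ Real.log N :=
      Pool.Agent.Results.MP_188a10_nt.WeightedExceptional.log_ge_one hN
    have hle : (N : ℝ) ≤ (2 : ℝ) ^ scaleOf N := by exact_mod_cast le_two_pow_scaleOf N
    have hge : (2 : ℝ) ^ scaleOf N ≤ 4 * N := by exact_mod_cast two_pow_scaleOf_le hN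
    have hs3 := scaleOf_ge N
    have hs0 : (0 : ℝ) < scaleOf N := by
      have : 0 < scaleOf N := by omega
      exact_mod_cast this
    have hj6 : (scaleOf N : ℝ) ≤ 6 * Real.log N := by
      have h1 : Real.log ((2 : ℝ) ^ scaleOf N) ≤ Real.log (4 * N) :=
        Real.log_le_log (by positivity) hge
      rw [Real.log_pow, Real.log_mul (by norm_num) (by positivity)] at h1
      have h2 : Real.log 4 = 2 * Real.log 2 := by
        rw [show (4 : ℝ) = 2 ^ 2 by norm_num, Real.log_pow]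
        push_cast
        ring
      have h3 := Real.log_two_gt_d9
      have h4 := Real.log_two_lt_d9
      nlinarith
    have hlogp : 0 < Real.log N := by linarith
    have hVle : (N : ℝ) / Real.log N ^ (K₁ + 2) ≤ V (scaleOf N) := by
      show _ ≤ 6 ^ (K₁ + 2) * ((2 : ℝ) ^ scaleOf N / (scaleOf N : ℝ) ^ (K₁ + 2))
      rw [div_le_iff₀ (by positivity)]
      have h1 : (scaleOf N : ℝ) ^ (K₁ + 2) ≤ 6 ^ (K₁ + 2) * Real.log N ^ (K₁ + 2) := by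
        rw [← mul_pow]
        exact pow_le_pow_left₀ hs0.le hj6 _
      have h2 : 6 ^ (K₁ + 2) * ((2 : ℝ) ^ scaleOf N / (scaleOf N : ℝ) ^ (K₁ + 2)) *
          Real.log N ^ (K₁ + 2) = (2 : ℝ) ^ scaleOf N *
            ((6 ^ (K₁ + 2) * Real.log N ^ (K₁ + 2)) / (scaleOf N : ℝ) ^ (K₁ + 2)) := by
        ring
      rw [h2]
      have h3 : 1 ≤ (6 ^ (K₁ + 2) * Real.log N ^ (K₁ + 2)) / (scaleOf N : ℝ) ^ (K₁ + 2) := by
        rw [le_div_iff₀ (by positivity), one_mul]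
        exact h1
      nlinarith
    have hQN : (Q' : ℝ) ≤ (2 : ℝ) ^ scaleOf N :=
      hQ'.trans ((div_le_self (by positivity) (one_le_pow₀ hlog1)).trans hle)
    refine hC' N hN Q' (le_min ?_ ?_) _ hVle
    · exact_mod_cast hQN
    · exact Nat.le_floor (hQ'.trans hVle)
  · have hs : Summable fun j : ℕ => (20 * (1 + 3 / c) * 6 ^ (K₁ + 2)) * (1 / (j : ℝ) ^ 2) :=
      (Real.summable_one_div_nat_pow.2 (by norm_num)).mul_left _
    refine Summable.of_nonneg_of_le (fun j => by positivity) (fun j => ?_) hs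
    rw [div_le_iff₀ (hRp j)]
    refine (hB1 j).trans (le_of_eq ?_)
    show 20 * (1 + 3 / c) * (R j * ((6 ^ (K₁ + 2) * ((2 : ℝ) ^ j / (j : ℝ) ^ (K₁ + 2))) *
      (j : ℝ) ^ K₁ / 2 ^ j)) = _
    rcases Nat.eq_zero_or_pos j with h | h
    · rw [h]
      simp
    · have hj0 : (0 : ℝ) < j := by exact_mod_cast h
      rw [pow_add (j : ℝ)]
      field_simp

end Pool.Agent.K9h83.BR
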