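import Pool.Agent.K9h83.BR.Limit

/-!
# Random real numbers whose integer parts have a bounded density modulo each `d`
-/

set_option autoImplicit false

namespace Pool.Agent.K9h83.BR

open Finset MeasureTheory
open Pool.Agent.Results.MP_188a10_nt.WeightedExceptional (primesAP li EMax EOff nuD EMax_eq)

/-- The integer part of `x d` is in each residue class modulo `d` with measure at most `C / d`. -/
def Spread {Ω : Type} [MeasurableSpace Ω] (μ : Measure Ω) (x : ℕ → Ω → ℝ) (C : ℝ) : Prop :=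
  ∀ d : ℕ, 1 ≤ d → ∀ u : ℤ, μ {ω | (d : ℤ) ∣ ⌊x d ω⌋ - u} ≤ ENNReal.ofReal (C / d)

theorem near_floor {x w w' : ℝ} (hw : w ≤ w') {l : ℤ} (hl : |(l : ℝ) - x| ≤ w) :
    l - ⌊x⌋ ∈ Icc (-⌊w'⌋) (⌊w'⌋ + 1) := by
  have m1 := Int.floor_le x
  have m2 := Int.lt_floor_add_one x
  rw [abs_le] at hl
  have k1 : ⌊x⌋ - l ≤ ⌊w'⌋ := by
    rw [Int.le_floor]
    push_cast
    linarith [hl.1]
  have k2 : l - ⌊x⌋ - 1 ≤ ⌊w'⌋ := by
    rw [Int.le_floor]
    push_cast
    linarith [hl.2]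
  rw [mem_Icc]
  omega

theorem meas_class {Ω : Type} [MeasurableSpace Ω] {x : Ω → ℝ} (hx : Measurable x) (d : ℕ)
    (u : ℤ) : MeasurableSet {ω | (d : ℤ) ∣ ⌊x ω⌋ - u} := by
  have h1 : Measurable fun ω => ⌊x ω⌋ := Int.measurable_floor.comp hx
  exact h1 (MeasurableSet.of_discrete (s := {m : ℤ | (d : ℤ) ∣ m - u}))

/-- **One scale.** -/
theorem scaleM (κ : ℝ) (hκ : 1 ≤ κ) (U : ℕ) : ∃ (K : ℕ) (C : ℝ), 0 ≤ C ∧ ∀ N : ℕ, 8 ≤ N →
    ∀ Q : ℕ, Q ≤ N → ∀ V : ℝ, (Q : ℝ) ≤ V → ∀ (Ω : Type) [MeasurableSpace Ω] (μ : Measure Ω)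
    (x : ℕ → Ω → ℝ) (C₀ : ℝ), 0 ≤ C₀ → (∀ d, Measurable (x d)) → Spread μ x C₀ →
    ∃ Bad : Set Ω, μ Bad ≤ ENNReal.ofReal (8 * C₀ * (V * Real.log N ^ K / N)) ∧
      ∀ ω ∉ Bad, ∀ Q' ≤ Q, ∀ V' ≤ V,
        total κ N Q' V' (fun d => x d ω) ≤ C * (N / Real.log N ^ U) := by
  classical
  obtain ⟨B, C₁, h0⟩ := Pool.Agent.Results.MP_188a10_nt.WeightedExceptional.result κ hκ U
  obtain ⟨c₀, hc₀⟩ := Pool.Agent.H300R2.WEH.sum_log κ hκ
  refine ⟨B + c₀ + U, max C₁ 0 + 1, by positivity, ?_⟩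
  intro N hN Q hQN V hQV Ω _ μ x C₀ hC₀ hx hspread
  obtain ⟨⟨X, hX, hsum⟩, -⟩ := h0 N (by omega)
  have hκ0 : 0 ≤ κ := by linarith
  have hNr : (8 : ℝ) ≤ N := by exact_mod_cast hN
  have hN0 : (0 : ℝ) < N := by linarith
  have hV0 : 0 ≤ V := le_trans (Nat.cast_nonneg _) hQV
  have hlog : 1 ≤ Real.log N :=
    Pool.Agent.Results.MP_188a10_nt.WeightedExceptional.log_ge_one (by omega)
  have hlog0 : 0 < Real.log N := by linarith
  have hVpos : 0 < (N : ℝ) / Real.log N ^ U := by positivity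
  let I : ℕ → Finset ℤ := fun d => Icc (-⌊V / d⌋) (⌊V / d⌋ + 1)
  let H : ℕ → Set Ω := fun d => ⋃ u ∈ X d, ⋃ b ∈ I d,
    {ω | (d : ℤ) ∣ ⌊x d ω⌋ - (((u : ZMod d).val : ℤ) - b)}
  have hHm : ∀ d, MeasurableSet (H d) := fun d =>
    Finset.measurableSet_biUnion _ fun u _ => Finset.measurableSet_biUnion _ fun b _ =>
      meas_class (hx d) d _
  let w : ℕ → ℝ := fun d => κ ^ nuD d * (2 * N / (Nat.totient d : ℝ))
  have hw : ∀ d, 0 ≤ w d := fun d => by positivity
  let S : Ω → ℝ := fun ω => ∑ d ∈ Icc 1 Q, if ω ∈ H d then w d else 0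
  let SE : Ω → ENNReal := fun ω => ∑ d ∈ Icc 1 Q, (H d).indicator (fun _ => ENNReal.ofReal (w d)) ω
  have hSE : ∀ ω, SE ω = ENNReal.ofReal (S ω) := by
    intro ω
    show ∑ d ∈ Icc 1 Q, (H d).indicator (fun _ => ENNReal.ofReal (w d)) ω =
      ENNReal.ofReal (∑ d ∈ Icc 1 Q, if ω ∈ H d then w d else 0)
    rw [ENNReal.ofReal_sum_of_nonneg]
    · refine sum_congr rfl fun d _ => ?_
      by_cases h : ω ∈ H d
      · rw [Set.indicator_of_mem h, if_pos h]
      · rw [Set.indicator_of_notMem h, if_neg h, ENNReal.ofReal_zero]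
    · intro d _
      split_ifs
      · exact hw d
      · exact le_rfl
  have hcount : ∀ d ∈ Icc 1 Q, μ (H d) ≤ ENNReal.ofReal (4 * C₀ * V * Real.log N ^ B / N) := by
    intro d hd
    rw [mem_Icc] at hd
    have hd0 : (0 : ℝ) < d := by exact_mod_cast hd.1
    have hdQ : (d : ℝ) ≤ Q := by exact_mod_cast hd.2
    have hVd : 1 ≤ V / d := by
      rw [le_div_iff₀ hd0]
      linarith
    have hI : ((I d).card : ℝ) ≤ 4 * (V / d) := by
      show ((Icc (-⌊V / d⌋) (⌊V / d⌋ + 1)).card : ℝ) ≤ _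
      have h1 : (1 : ℤ) ≤ ⌊V / d⌋ := by
        rw [Int.le_floor]
        exact_mod_cast hVd
      rw [Int.card_Icc]
      have h2 : (((⌊V / d⌋ + 1 + 1 - -⌊V / d⌋).toNat : ℕ) : ℤ) = 2 * ⌊V / d⌋ + 2 := by
        rw [Int.toNat_of_nonneg (by omega)]
        ring
      have h3 : (((⌊V / d⌋ + 1 + 1 - -⌊V / d⌋).toNat : ℕ) : ℝ) = 2 * (⌊V / d⌋ : ℝ) + 2 := by
        exact_mod_cast h2
      rw [h3]
      have := Int.floor_le (V / d)
      linarith
    have h1 : μ (H d) ≤ ∑ _u ∈ X d, ∑ _b ∈ I d, ENNReal.ofReal (C₀ / d) := by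
      refine (measure_biUnion_finset_le _ _).trans (sum_le_sum fun u _ => ?_)
      exact (measure_biUnion_finset_le _ _).trans (sum_le_sum fun b _ => hspread d hd.1 _)
    refine h1.trans ?_
    rw [sum_const, sum_const, nsmul_eq_mul, nsmul_eq_mul, ← ENNReal.ofReal_natCast,
      ← ENNReal.ofReal_natCast, ← ENNReal.ofReal_mul (Nat.cast_nonneg _),
      ← ENNReal.ofReal_mul (Nat.cast_nonneg _)]
    refine ENNReal.ofReal_le_ofReal ?_
    have h2 := hX d hd.1
    calc ((X d).card : ℝ) * (((I d).card : ℝ) * (C₀ / d))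
        ≤ ((d : ℝ) ^ 2 * Real.log N ^ B / N) * ((4 * (V / d)) * (C₀ / d)) :=
          mul_le_mul h2 (mul_le_mul_of_nonneg_right hI (by positivity)) (by positivity)
            (by positivity)
      _ = 4 * C₀ * V * Real.log N ^ B / N := by
          field_simp
  have hSEm : Measurable SE := by
    refine Finset.measurable_sum _ fun d _ => ?_
    exact measurable_const.indicator (hHm d)
  have hint : ∫⁻ ω, SE ω ∂μ ≤ ENNReal.ofReal (8 * C₀ * V * Real.log N ^ B * Real.log N ^ c₀) := by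
    show ∫⁻ ω, ∑ d ∈ Icc 1 Q, (H d).indicator (fun _ => ENNReal.ofReal (w d)) ω ∂μ ≤ _
    rw [lintegral_finsetSum _ fun d _ => measurable_const.indicator (hHm d)]
    have h1 : ∀ d ∈ Icc 1 Q, ∫⁻ ω, (H d).indicator (fun _ => ENNReal.ofReal (w d)) ω ∂μ ≤
        ENNReal.ofReal (8 * C₀ * V * Real.log N ^ B *
          (κ ^ d.primeFactors.card / (Nat.totient d : ℝ))) := by
      intro d hd
      rw [lintegral_indicator_const (hHm d)]
      refine (mul_le_mul_right (hcount d hd) _).trans ?_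
      rw [← ENNReal.ofReal_mul (hw d)]
      refine ENNReal.ofReal_le_ofReal (le_of_eq ?_)
      show κ ^ d.primeFactors.card * (2 * N / (Nat.totient d : ℝ)) *
        (4 * C₀ * V * Real.log N ^ B / N) = _
      field_simp
      ring
    refine (sum_le_sum h1).trans ?_
    rw [← ENNReal.ofReal_sum_of_nonneg fun d _ => by positivity, ← mul_sum]
    refine ENNReal.ofReal_le_ofReal (mul_le_mul_of_nonneg_left ?_ (by positivity))
    exact (sum_le_sum_of_subset_of_nonneg (Icc_subset_Icc_right hQN)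
      fun d _ _ => by positivity).trans (hc₀ N hN)
  refine ⟨{ω | ENNReal.ofReal ((N : ℝ) / Real.log N ^ U) ≤ SE ω}, ?_, ?_⟩
  · have h1 := meas_ge_le_lintegral_div (μ := μ) (f := SE)
      (ε := ENNReal.ofReal ((N : ℝ) / Real.log N ^ U)) hSEm.aemeasurable
      (by rw [Ne, ENNReal.ofReal_eq_zero, not_le]; exact hVpos) ENNReal.ofReal_ne_top
    refine h1.trans ?_
    refine (ENNReal.div_le_div_right hint _).trans ?_
    rw [← ENNReal.ofReal_div_of_pos hVpos]
    refine ENNReal.ofReal_le_ofReal (le_of_eq ?_)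
    rw [pow_add, pow_add]
    field_simp
  · -- the good points
    intro ω hω Q' hQ' V' hV'
    have hSi : S ω ≤ (N : ℝ) / Real.log N ^ U := by
      have h1 : SE ω < ENNReal.ofReal ((N : ℝ) / Real.log N ^ U) := not_le.1 hω
      rw [hSE, ENNReal.ofReal_lt_ofReal_iff hVpos] at h1
      exact h1.le
    have hterm : ∀ d ∈ Icc 1 Q, κ ^ nuD d * ENear N d (x d ω) (V' / d) ≤
          κ ^ nuD d * EOff N d (X d) + if ω ∈ H d then w d else 0 := by
      intro d hd
      rw [mem_Icc] at hd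
      obtain ⟨hd1, hdQ⟩ := hd
      have : NeZero d := ⟨by omega⟩
      have hd0 : (0 : ℝ) < d := by exact_mod_cast hd1
      have hVV : V' / d ≤ V / d := div_le_div_of_nonneg_right hV' hd0.le
      have hunit : ∀ l : ℤ, IsCoprime l (d : ℤ) → IsUnit ((l : ℤ) : ZMod d) := fun l hl =>
        (ZMod.coe_int_isUnit_iff_isCoprime _ _).2 hl.symm
      by_cases hH : ω ∈ H d
      · rw [if_pos hH]
        have g1 : ENear N d (x d ω) (V' / d) ≤ 2 * N / (Nat.totient d : ℝ) := by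
          refine Real.iSup_le (fun l => ?_) (by positivity)
          have hu : (((hunit l.1 l.2.1).unit : (ZMod d)ˣ) : ZMod d) = ((l.1 : ℤ) : ZMod d) := rfl
          rw [EM_eq hu, EMax_eq]
          exact Pool.Agent.H300R2.WEH.errMax_triv N d _ (by omega) hd1 (hdQ.trans hQN)
        have g2 : κ ^ nuD d * ENear N d (x d ω) (V' / d) ≤ w d :=
          mul_le_mul_of_nonneg_left g1 (by positivity)
        have g3 : 0 ≤ κ ^ nuD d * EOff N d (X d) :=
          mul_nonneg (by positivity) (EOff_nonneg _ _ _)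
        linarith
      · rw [if_neg hH, add_zero]
        refine mul_le_mul_of_nonneg_left ?_ (by positivity)
        refine Real.iSup_le (fun l => ?_) (EOff_nonneg _ _ _)
        have hu : (((hunit l.1 l.2.1).unit : (ZMod d)ˣ) : ZMod d) = ((l.1 : ℤ) : ZMod d) := rfl
        have hxx : (hunit l.1 l.2.1).unit ∉ X d := by
          intro hxx
          refine hH (Set.mem_iUnion₂.2 ⟨_, hxx, Set.mem_iUnion₂.2
            ⟨l.1 - ⌊x d ω⌋, near_floor hVV l.2.2, ?_⟩⟩)
          show (d : ℤ) ∣ ⌊x d ω⌋ - ((((hunit l.1 l.2.1).unit : ZMod d).val : ℤ) - (l.1 - ⌊x d ω⌋))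
          have e1 : ⌊x d ω⌋ - ((((hunit l.1 l.2.1).unit : ZMod d).val : ℤ) - (l.1 - ⌊x d ω⌋)) =
              l.1 - (((hunit l.1 l.2.1).unit : ZMod d).val : ℤ) := by ring
          rw [e1, ← ZMod.intCast_eq_intCast_iff_dvd_sub, Int.cast_natCast, ZMod.natCast_zmod_val,
            hu]
        rw [EM_eq hu]
        unfold EOff
        exact le_ciSup (f := fun l : {l : (ZMod d)ˣ // l ∉ X d} => EMax N d l)
          (Set.finite_range _).bddAbove ⟨_, hxx⟩
    calc total κ N Q' V' (fun d => x d ω)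
        ≤ total κ N Q V' (fun d => x d ω) := total_mono hκ0 le_rfl hQ' le_rfl _
      _ ≤ ∑ d ∈ Icc 1 Q, (κ ^ nuD d * EOff N d (X d) + if ω ∈ H d then w d else 0) :=
          sum_le_sum hterm
      _ = ∑ d ∈ Icc 1 Q, κ ^ nuD d * EOff N d (X d) + S ω := sum_add_distrib
      _ ≤ C₁ * (N / Real.log N ^ U) + N / Real.log N ^ U := by
          refine add_le_add (le_trans ?_ hsum) hSi
          exact sum_le_sum_of_subset_of_nonneg (Icc_subset_Icc_right hQN) fun d _ _ =>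
            mul_nonneg (by positivity) (EOff_nonneg _ _ _)
      _ ≤ (max C₁ 0 + 1) * (N / Real.log N ^ U) := by
          have := mul_le_mul_of_nonneg_right (le_max_left C₁ 0) hVpos.le
          linarith

end Pool.Agent.K9h83.BR
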