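import Pool.Agent.Results.MP_188a10_nt.WeightedExceptional
import Pool.Agent.K9h83.BR.Count
import Pool.Agent.K9h83.BR.Dim

/-!
# The weighted sum for the residues near `α F(d) + G(d)` at one scale
-/

set_option autoImplicit false

namespace Pool.Agent.K9h83.BR

open Finset
open Pool.Agent.Results.MP_188a10_nt.WeightedExceptional (primesAP li EMax EOff nuD EMax_eq)

/-- The maximum over all real `y`, `2 ≤ y ≤ N`, of `|π(y; d, l) - li(y) / φ(d)|`. -/
noncomputable def EM (N d : ℕ) (l : ℤ) : ℝ :=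
  ⨆ y : Set.Icc (2 : ℝ) N, |(primesAP y d (l : ZMod d) : ℝ) - li y / (Nat.totient d : ℝ)|

/-- The maximum of `EM N d l` over all the integers `l` prime to `d` with `|l - x| ≤ w` (`0` if there
is none). -/
noncomputable def ENear (N d : ℕ) (x w : ℝ) : ℝ :=
  ⨆ l : {l : ℤ // IsCoprime l (d : ℤ) ∧ |(l : ℝ) - x| ≤ w}, EM N d l

/-- The sum of `κ ^ ν(d) ENear N d (x d) (V / d)` over the moduli `1 ≤ d ≤ Q`; `ν(d)` is the number
of distinct prime factors of `d`. -/
noncomputable def total (κ : ℝ) (N Q : ℕ) (V : ℝ) (x : ℕ → ℝ) : ℝ :=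
  ∑ d ∈ Icc 1 Q, κ ^ nuD d * ENear N d (x d) (V / d)

theorem EM_nonneg (N d : ℕ) (a : ℤ) : 0 ≤ EM N d a := Real.iSup_nonneg fun _ => abs_nonneg _

theorem EMax_nonneg (N d : ℕ) (u : (ZMod d)ˣ) : 0 ≤ EMax N d u :=
  Real.iSup_nonneg fun _ => abs_nonneg _

theorem EOff_nonneg (N d : ℕ) (X : Finset (ZMod d)ˣ) : 0 ≤ EOff N d X :=
  Real.iSup_nonneg fun _ => EMax_nonneg _ _ _

theorem EM_eq {N d : ℕ} {a : ℤ} {u : (ZMod d)ˣ} (h : (u : ZMod d) = (a : ZMod d)) :
    EM N d a = EMax N d u := by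
  unfold EM EMax
  rw [h]

theorem li_bound {y : ℝ} {N : ℕ} (hy : y ∈ Set.Icc (2 : ℝ) N) : |li y| ≤ 2 * N := by
  have h := intervalIntegral.norm_integral_le_of_norm_le_const (a := (2 : ℝ)) (b := y)
    (f := fun t => 1 / Real.log t) (C := 2) (by
      intro t ht
      rw [Set.uIoc_of_le hy.1] at ht
      have h3 : Real.log 2 ≤ Real.log t := Real.log_le_log (by norm_num) ht.1.le
      have := Real.log_two_gt_d9
      rw [Real.norm_eq_abs, abs_of_pos (by
        have : 0 < Real.log t := by linarith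
        positivity), div_le_iff₀ (by linarith)]
      linarith)
  rw [Real.norm_eq_abs, abs_of_nonneg (by linarith [hy.1] : (0 : ℝ) ≤ y - 2)] at h
  have := hy.2
  unfold li
  linarith

theorem term_le (N d : ℕ) (a : ℤ) (y : Set.Icc (2 : ℝ) N) :
    |(primesAP y d (a : ZMod d) : ℝ) - li y / (Nat.totient d : ℝ)| ≤ N + 2 * N := by
  obtain ⟨y, hy⟩ := y
  have h1 : (primesAP y d (a : ZMod d) : ℝ) ≤ N := by
    have g1 : primesAP y d (a : ZMod d) ≤ ⌊y⌋₊ := by
      refine (card_filter_le _ _).trans ?_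
      rw [Nat.card_Icc]
      omega
    have g2 : (⌊y⌋₊ : ℝ) ≤ y := Nat.floor_le (by linarith [hy.1])
    have g3 : (primesAP y d (a : ZMod d) : ℝ) ≤ ⌊y⌋₊ := by exact_mod_cast g1
    linarith [hy.2]
  have h2 := li_bound hy
  have h3 : |li y / (Nat.totient d : ℝ)| ≤ 2 * N := by
    rw [abs_div, abs_of_nonneg (Nat.cast_nonneg _ : (0 : ℝ) ≤ (Nat.totient d : ℝ))]
    rcases Nat.eq_zero_or_pos (Nat.totient d) with h | h
    · rw [h, Nat.cast_zero, div_zero]
      positivity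
    · have : (1 : ℝ) ≤ (Nat.totient d : ℝ) := by exact_mod_cast h
      exact (div_le_self (abs_nonneg _) this).trans h2
  simp only
  refine (abs_sub _ _).trans ?_
  rw [abs_of_nonneg (Nat.cast_nonneg _ : (0 : ℝ) ≤ (primesAP y d (a : ZMod d) : ℝ))]
  linarith

theorem bdd (N d : ℕ) (a : ℤ) : BddAbove (Set.range fun y : Set.Icc (2 : ℝ) N =>
    |(primesAP y d (a : ZMod d) : ℝ) - li y / (Nat.totient d : ℝ)|) := by
  refine ⟨N + 2 * N, ?_⟩
  rintro _ ⟨y, rfl⟩
  exact term_le N d a y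

theorem EM_le (N d : ℕ) (a : ℤ) : EM N d a ≤ N + 2 * N :=
  Real.iSup_le (term_le N d a) (by positivity)

theorem EM_mono {N N' : ℕ} (h : N ≤ N') (d : ℕ) (a : ℤ) : EM N d a ≤ EM N' d a := by
  refine Real.iSup_le (fun y => ?_) (EM_nonneg _ _ _)
  have hy : (y : ℝ) ∈ Set.Icc (2 : ℝ) N' := ⟨y.2.1, y.2.2.trans (by exact_mod_cast h)⟩
  exact le_ciSup (bdd N' d a) ⟨y, hy⟩

theorem ENear_nonneg (N d : ℕ) (x w : ℝ) : 0 ≤ ENear N d x w :=
  Real.iSup_nonneg fun _ => EM_nonneg _ _ _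

theorem le_ENear {N d : ℕ} {x w : ℝ} {l : ℤ} (h1 : IsCoprime l (d : ℤ)) (h2 : |(l : ℝ) - x| ≤ w) :
    EM N d l ≤ ENear N d x w := by
  unfold ENear
  refine le_ciSup (f := fun l : {l : ℤ // IsCoprime l (d : ℤ) ∧ |(l : ℝ) - x| ≤ w} => EM N d l)
    ⟨N + 2 * N, ?_⟩ ⟨l, h1, h2⟩
  rintro _ ⟨l, rfl⟩
  exact EM_le N d l

theorem ENear_mono {N N' : ℕ} (h : N ≤ N') (d : ℕ) (x : ℝ) {w w' : ℝ} (hw : w ≤ w') :
    ENear N d x w ≤ ENear N' d x w' := by
  refine Real.iSup_le (fun l => ?_) (ENear_nonneg _ _ _ _)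
  exact (EM_mono h d _).trans (le_ENear l.2.1 (l.2.2.trans hw))

theorem total_nonneg {κ : ℝ} (hκ : 0 ≤ κ) (N Q : ℕ) (V : ℝ) (x : ℕ → ℝ) : 0 ≤ total κ N Q V x :=
  sum_nonneg fun _ _ => mul_nonneg (pow_nonneg hκ _) (ENear_nonneg _ _ _ _)

theorem total_mono {κ : ℝ} (hκ : 0 ≤ κ) {N N' Q Q' : ℕ} {V V' : ℝ} (hN : N ≤ N') (hQ : Q ≤ Q')
    (hV : V ≤ V') (x : ℕ → ℝ) : total κ N Q V x ≤ total κ N' Q' V' x := by
  unfold total
  calc _ ≤ ∑ d ∈ Icc 1 Q, κ ^ nuD d * ENear N' d (x d) (V' / d) :=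
        sum_le_sum fun d _ => mul_le_mul_of_nonneg_left
          (ENear_mono hN d _ (div_le_div_of_nonneg_right hV (Nat.cast_nonneg _))) (pow_nonneg hκ _)
    _ ≤ _ := sum_le_sum_of_subset_of_nonneg (Icc_subset_Icc_right hQ) fun d _ _ =>
        mul_nonneg (pow_nonneg hκ _) (ENear_nonneg _ _ _ _)

theorem total_mono_weight {κ κ' : ℝ} (hκ : 0 ≤ κ) (h : κ ≤ κ') (N Q : ℕ) (V : ℝ) (x : ℕ → ℝ) :
    total κ N Q V x ≤ total κ' N Q V x :=
  sum_le_sum fun _ _ => mul_le_mul_of_nonneg_right (pow_le_pow_left₀ hκ h _)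
    (ENear_nonneg _ _ _ _)

/-- an integer near `α F + G` is near the integer part attached to the cell of `α` -/
theorem near_cell {F G α w w' : ℝ} {R i : ℕ} (hF : 0 < F) (hR : F ≤ R) (hw : w ≤ w')
    (h1 : (i : ℝ) / R ≤ α) (h2 : α < ((i : ℝ) + 1) / R) {l : ℤ} (hl : |(l : ℝ) - (α * F + G)| ≤ w) :
    l - ⌊(i : ℝ) * F / R + G⌋ ∈ Icc (-⌊w'⌋) (⌊w'⌋ + 2) := by
  have hR0 : (0 : ℝ) < R := lt_of_lt_of_le hF hR
  have e1 : (i : ℝ) * F / R = (i : ℝ) / R * F := by ring
  have g1 : (i : ℝ) * F / R + G ≤ α * F + G := by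
    rw [e1]
    have := mul_le_mul_of_nonneg_right h1 hF.le
    linarith
  have g2 : α * F + G < (i : ℝ) * F / R + G + 1 := by
    have h3 : α * F < ((i : ℝ) + 1) / R * F := mul_lt_mul_of_pos_right h2 hF
    have h4 : ((i : ℝ) + 1) / R * F = (i : ℝ) * F / R + F / R := by ring
    have h5 : F / R ≤ 1 := (div_le_one hR0).2 hR
    linarith
  have m1 := Int.floor_le ((i : ℝ) * F / R + G)
  have m2 := Int.lt_floor_add_one ((i : ℝ) * F / R + G)
  rw [abs_le] at hl
  have k1 : ⌊(i : ℝ) * F / R + G⌋ - l ≤ ⌊w'⌋ := by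
    rw [Int.le_floor]
    push_cast
    linarith [hl.1]
  have k2 : l - ⌊(i : ℝ) * F / R + G⌋ - 2 ≤ ⌊w'⌋ := by
    rw [Int.le_floor]
    push_cast
    linarith [hl.2]
  rw [mem_Icc]
  omega

/-- **One scale.** -/
theorem scale (κ : ℝ) (hκ : 1 ≤ κ) (U : ℕ) : ∃ (K : ℕ) (C : ℝ), 0 ≤ C ∧ ∀ N : ℕ, 8 ≤ N →
    ∀ Q : ℕ, Q ≤ N → ∀ V : ℝ, (Q : ℝ) ≤ V → ∀ (c : ℝ), 0 < c → ∀ (F G : ℕ → ℝ) (R : ℕ), 1 ≤ R →
    (∀ d, 1 ≤ d → d ≤ Q → c * d ≤ F d ∧ F d ≤ R) →
    ∃ Bad : Finset ℕ, (Bad.card : ℝ) ≤ 20 * (1 + 3 / c) * (R * (V * Real.log N ^ K / N)) ∧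
      ∀ i < R, i ∉ Bad → ∀ α : ℝ, (i : ℝ) / R ≤ α → α < ((i : ℝ) + 1) / R →
        ∀ Q' ≤ Q, ∀ V' ≤ V,
        total κ N Q' V' (fun d => α * F d + G d) ≤ C * (N / Real.log N ^ U) := by
  classical
  obtain ⟨B, C₀, h0⟩ := Pool.Agent.Results.MP_188a10_nt.WeightedExceptional.result κ hκ U
  obtain ⟨c₀, hc₀⟩ := Pool.Agent.H300R2.WEH.sum_log κ hκ
  refine ⟨B + c₀ + U, max C₀ 0 + 1, by positivity, ?_⟩
  intro N hN Q hQN V hQV c hc F G R hR hF
  obtain ⟨⟨X, hX, hsum⟩, -⟩ := h0 N (by omega)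
  have hκ0 : 0 ≤ κ := by linarith
  have hNr : (8 : ℝ) ≤ N := by exact_mod_cast hN
  have hN0 : (0 : ℝ) < N := by linarith
  have hR0 : (0 : ℝ) < R := by exact_mod_cast hR
  have hV0 : 0 ≤ V := le_trans (Nat.cast_nonneg _) hQV
  have hlog : 1 ≤ Real.log N :=
    Pool.Agent.Results.MP_188a10_nt.WeightedExceptional.log_ge_one (by omega)
  have hlog0 : 0 < Real.log N := by linarith
  have hVpos : 0 < (N : ℝ) / Real.log N ^ U := by positivity
  let m : ℕ → ℕ → ℤ := fun i d => ⌊(i : ℝ) * F d / R + G d⌋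
  let I : ℕ → Finset ℤ := fun d => Icc (-⌊V / d⌋) (⌊V / d⌋ + 2)
  let H : ℕ → ℕ → Prop := fun i d => ∃ u ∈ X d, ∃ b ∈ I d, ((m i d + b : ℤ) : ZMod d) = (u : ZMod d)
  let w : ℕ → ℝ := fun d => κ ^ nuD d * (2 * N / (Nat.totient d : ℝ))
  have hw : ∀ d, 0 ≤ w d := fun d => by positivity
  let S : ℕ → ℝ := fun i => ∑ d ∈ Icc 1 Q, if H i d then w d else 0
  have hS : ∀ i, 0 ≤ S i := fun i => sum_nonneg fun d _ => by
    split_ifs
    · exact hw d
    · exact le_rfl
  refine ⟨(range R).filter fun i => (N : ℝ) / Real.log N ^ U < S i, ?_, ?_⟩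
  · -- the number of the bad cells
    have hcount : ∀ d ∈ Icc 1 Q, (((range R).filter fun i => H i d).card : ℝ) ≤
        10 * (1 + 3 / c) * (R * V / (d : ℝ) ^ 2) * ((d : ℝ) ^ 2 * Real.log N ^ B / N) := by
      intro d hd
      rw [mem_Icc] at hd
      have hd0 : (0 : ℝ) < d := by exact_mod_cast hd.1
      have hdQ : (d : ℝ) ≤ Q := by exact_mod_cast hd.2
      have : NeZero d := ⟨by omega⟩
      obtain ⟨hF1, hF2⟩ := hF d hd.1 hd.2
      have hVd : 1 ≤ V / d := by
        rw [le_div_iff₀ hd0]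
        linarith
      have hI : ((I d).card : ℝ) ≤ 5 * (V / d) := by
        show ((Icc (-⌊V / d⌋) (⌊V / d⌋ + 2)).card : ℝ) ≤ _
        have h1 : (1 : ℤ) ≤ ⌊V / d⌋ := by
          rw [Int.le_floor]
          exact_mod_cast hVd
        rw [Int.card_Icc]
        have h2 : (((⌊V / d⌋ + 2 + 1 - -⌊V / d⌋).toNat : ℕ) : ℤ) = 2 * ⌊V / d⌋ + 3 := by
          rw [Int.toNat_of_nonneg (by omega)]
          ring
        have h3 : (((⌊V / d⌋ + 2 + 1 - -⌊V / d⌋).toNat : ℕ) : ℝ) = 2 * (⌊V / d⌋ : ℝ) + 3 := by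
          exact_mod_cast h2
        rw [h3]
        have := Int.floor_le (V / d)
        linarith
      have key : ∀ (u : (ZMod d)ˣ) (e : ℤ),
          (((range R).filter fun i => ((m i d + e : ℤ) : ZMod d) = (u : ZMod d)).card : ℝ) ≤
            2 * (1 + 3 / c) * (R / d) := by
        intro u e
        have h1 := card_cells (G := G d) hc hd.1 hF1 hF2 (((u : ZMod d).val : ℤ) - e)
        have h2 : (range R).filter (fun i => ((m i d + e : ℤ) : ZMod d) = (u : ZMod d)) =
            (range R).filter (fun i : ℕ => (d : ℤ) ∣ ⌊(i : ℝ) * F d / R + G d⌋ -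
              (((u : ZMod d).val : ℤ) - e)) := by
          refine filter_congr fun i _ => ?_
          have h3 : (u : ZMod d) = ((((u : ZMod d).val : ℕ) : ℤ) : ZMod d) := by
            rw [Int.cast_natCast, ZMod.natCast_zmod_val]
          have h4 : m i d + e - (((u : ZMod d).val : ℕ) : ℤ) =
              ⌊(i : ℝ) * F d / R + G d⌋ - (((u : ZMod d).val : ℤ) - e) := by
            show ⌊(i : ℝ) * F d / R + G d⌋ + e - _ = _
            ring
          have h5 : ∀ z : ℤ, ((z : ZMod d) = (u : ZMod d)) ↔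
              (d : ℤ) ∣ z - (((u : ZMod d).val : ℕ) : ℤ) := by
            intro z
            rw [← ZMod.intCast_eq_intCast_iff_dvd_sub, ← h3, eq_comm]
          rw [h5, h4]
        rw [h2]
        exact h1
      have hsub : (range R).filter (fun i => H i d) ⊆ (X d).biUnion fun u => (I d).biUnion fun b =>
          ((range R).filter fun i => ((m i d + b : ℤ) : ZMod d) = (u : ZMod d)) := by
        intro i hi
        rw [mem_filter] at hi
        obtain ⟨hi1, u, hu, b, hb, h⟩ := hi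
        rw [mem_biUnion]
        refine ⟨u, hu, ?_⟩
        rw [mem_biUnion]
        exact ⟨b, hb, mem_filter.2 ⟨hi1, h⟩⟩
      have h1 : (((range R).filter fun i => H i d).card : ℝ) ≤
          ∑ _u ∈ X d, 10 * (1 + 3 / c) * (R * V / (d : ℝ) ^ 2) := by
        have g1 := (card_le_card hsub).trans card_biUnion_le
        have g2 : (((range R).filter fun i => H i d).card : ℝ) ≤
            ∑ u ∈ X d, (((I d).biUnion fun b =>
            ((range R).filter fun i => ((m i d + b : ℤ) : ZMod d) = (u : ZMod d))).card : ℝ) := by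
          exact_mod_cast g1
        refine g2.trans (sum_le_sum fun u _ => ?_)
        have g3 : (((I d).biUnion fun b =>
            ((range R).filter fun i => ((m i d + b : ℤ) : ZMod d) = (u : ZMod d))).card : ℝ) ≤
            ∑ b ∈ I d, (((range R).filter fun i =>
              ((m i d + b : ℤ) : ZMod d) = (u : ZMod d)).card : ℝ) := by
          exact_mod_cast card_biUnion_le
        refine (g3.trans (sum_le_sum fun b _ => key u b)).trans ?_
        rw [sum_const, nsmul_eq_mul]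
        calc ((I d).card : ℝ) * (2 * (1 + 3 / c) * (R / d))
            ≤ 5 * (V / d) * (2 * (1 + 3 / c) * (R / d)) :=
              mul_le_mul_of_nonneg_right hI (by positivity)
          _ = 10 * (1 + 3 / c) * (R * V / (d : ℝ) ^ 2) := by
              field_simp
              ring
      refine h1.trans ?_
      rw [sum_const, nsmul_eq_mul, mul_comm]
      exact mul_le_mul_of_nonneg_left (hX d hd.1) (by positivity)
    have hdouble : ∑ i ∈ range R, S i ≤
        20 * (1 + 3 / c) * (R * Real.log N ^ B * (V * Real.log N ^ c₀)) := by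
      show ∑ i ∈ range R, ∑ d ∈ Icc 1 Q, (if H i d then w d else 0) ≤ _
      rw [sum_comm]
      have h1 : ∀ d ∈ Icc 1 Q, ∑ i ∈ range R, (if H i d then w d else 0) ≤
          20 * (1 + 3 / c) * (R * Real.log N ^ B * V) *
            (κ ^ d.primeFactors.card / (Nat.totient d : ℝ)) := by
        intro d hd
        have hd' := mem_Icc.1 hd
        have hd0 : (0 : ℝ) < d := by exact_mod_cast hd'.1
        rw [← sum_filter, sum_const, nsmul_eq_mul]
        refine (mul_le_mul_of_nonneg_right (hcount d hd) (hw d)).trans (le_of_eq ?_)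
        show 10 * (1 + 3 / c) * (R * V / (d : ℝ) ^ 2) * ((d : ℝ) ^ 2 * Real.log N ^ B / N) *
            (κ ^ d.primeFactors.card * (2 * N / (Nat.totient d : ℝ))) = _
        have hφ : (Nat.totient d : ℝ) ≠ 0 := by
          have := Nat.totient_pos.mpr (by omega : 0 < d)
          exact_mod_cast this.ne'
        field_simp
        ring
      refine (sum_le_sum h1).trans ?_
      rw [← mul_sum]
      have h2 : ∑ d ∈ Icc 1 Q, κ ^ d.primeFactors.card / (Nat.totient d : ℝ) ≤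
          Real.log N ^ c₀ :=
        (sum_le_sum_of_subset_of_nonneg (Icc_subset_Icc_right hQN)
          fun d _ _ => by positivity).trans (hc₀ N hN)
      calc _ ≤ 20 * (1 + 3 / c) * (R * Real.log N ^ B * V) * Real.log N ^ c₀ :=
            mul_le_mul_of_nonneg_left h2 (by positivity)
        _ = _ := by ring
    have h3 : (((range R).filter fun i => (N : ℝ) / Real.log N ^ U < S i).card : ℝ) *
        ((N : ℝ) / Real.log N ^ U) ≤ ∑ i ∈ range R, S i := by
      rw [← nsmul_eq_mul]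
      refine (card_nsmul_le_sum _ _ _ fun i hi => (mem_filter.1 hi).2.le).trans ?_
      exact sum_le_sum_of_subset_of_nonneg (filter_subset _ _) fun i _ _ => hS i
    have h4 := h3.trans hdouble
    rw [← le_div_iff₀ hVpos] at h4
    refine h4.trans (le_of_eq ?_)
    rw [pow_add, pow_add]
    field_simp
  · -- the good cells
    intro i hi hiBad α h1 h2 Q' hQ' V' hV'
    have hSi : S i ≤ (N : ℝ) / Real.log N ^ U := by
      by_contra hcon
      rw [not_le] at hcon
      exact hiBad (mem_filter.2 ⟨mem_range.2 hi, hcon⟩)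
    have hterm : ∀ d ∈ Icc 1 Q, κ ^ nuD d * ENear N d (α * F d + G d) (V' / d) ≤
          κ ^ nuD d * EOff N d (X d) + if H i d then w d else 0 := by
      intro d hd
      rw [mem_Icc] at hd
      obtain ⟨hd1, hdQ⟩ := hd
      have : NeZero d := ⟨by omega⟩
      obtain ⟨hF1, hF2⟩ := hF d hd1 hdQ
      have hd0 : (0 : ℝ) < d := by exact_mod_cast hd1
      have hF0 : 0 < F d := lt_of_lt_of_le (by positivity) hF1
      have hVV : V' / d ≤ V / d := div_le_div_of_nonneg_right hV' hd0.le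
      have hunit : ∀ l : ℤ, IsCoprime l (d : ℤ) → IsUnit ((l : ℤ) : ZMod d) := fun l hl =>
        (ZMod.coe_int_isUnit_iff_isCoprime _ _).2 hl.symm
      by_cases hH : H i d
      · rw [if_pos hH]
        have g1 : ENear N d (α * F d + G d) (V' / d) ≤ 2 * N / (Nat.totient d : ℝ) := by
          refine Real.iSup_le (fun l => ?_) (by positivity)
          have hu : (((hunit l.1 l.2.1).unit : (ZMod d)ˣ) : ZMod d) = ((l.1 : ℤ) : ZMod d) := rfl
          rw [EM_eq hu, EMax_eq]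
          exact Pool.Agent.H300R2.WEH.errMax_triv N d _ (by omega) hd1 (hdQ.trans hQN)
        have g2 : κ ^ nuD d * ENear N d (α * F d + G d) (V' / d) ≤ w d :=
          mul_le_mul_of_nonneg_left g1 (by positivity)
        have g3 : 0 ≤ κ ^ nuD d * EOff N d (X d) :=
          mul_nonneg (by positivity) (EOff_nonneg _ _ _)
        linarith
      · rw [if_neg hH, add_zero]
        refine mul_le_mul_of_nonneg_left ?_ (by positivity)
        refine Real.iSup_le (fun l => ?_) (EOff_nonneg _ _ _)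
        have hu : (((hunit l.1 l.2.1).unit : (ZMod d)ˣ) : ZMod d) = ((l.1 : ℤ) : ZMod d) := rfl
        have hx : (hunit l.1 l.2.1).unit ∉ X d := by
          intro hx
          refine hH ⟨_, hx, l.1 - m i d, near_cell hF0 hF2 hVV h1 h2 l.2.2, ?_⟩
          rw [hu]
          congr 1
          ring
        rw [EM_eq hu]
        unfold EOff
        exact le_ciSup (f := fun l : {l : (ZMod d)ˣ // l ∉ X d} => EMax N d l)
          (Set.finite_range _).bddAbove ⟨_, hx⟩
    calc total κ N Q' V' (fun d => α * F d + G d)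
        ≤ total κ N Q V' (fun d => α * F d + G d) := total_mono hκ0 le_rfl hQ' le_rfl _
      _ ≤ ∑ d ∈ Icc 1 Q, (κ ^ nuD d * EOff N d (X d) + if H i d then w d else 0) :=
          sum_le_sum hterm
      _ = ∑ d ∈ Icc 1 Q, κ ^ nuD d * EOff N d (X d) + S i := sum_add_distrib
      _ ≤ C₀ * (N / Real.log N ^ U) + N / Real.log N ^ U := by
          refine add_le_add (le_trans ?_ hsum) hSi
          exact sum_le_sum_of_subset_of_nonneg (Icc_subset_Icc_right hQN) fun d _ _ =>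
            mul_nonneg (by positivity) (EOff_nonneg _ _ _)
      _ ≤ (max C₀ 0 + 1) * (N / Real.log N ^ U) := by
          have := mul_le_mul_of_nonneg_right (le_max_left C₀ 0) hVpos.le
          linarith

end Pool.Agent.K9h83.BR
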